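import Mathlib

/-!
# MP_f5d6d4_co, project NP: definitions

* `Nested T w r` : nested alternating matching with `r` edges in a `T`-periodic two-coloured word
* `step`, `Lf` : the integer field
* `TF` : the abstract torus field
-/

namespace Pool.Agent.H95.NP

open Finset

/-- Nested alternating matching with `r` edges in the (`T`-periodic) word `w`. -/
def Nested (T : ℤ) (w : ℤ → Bool) (r : ℕ) : Prop :=
  ∃ x y : ℕ → ℤ,
    (∀ s t, s < t → t < r → x t < x s ∧ y s < y t) ∧
    (∀ t, t < r → x t < y t ∧ y t < x t + T ∧ w (x t) ≠ w (y t))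

open Classical in
/-- One evolution step: `M` = set of matched columns. -/
noncomputable def step (M : ℤ → Prop) (L : ℤ → ℤ) (j : ℤ) : ℤ :=
  if ∃ r : ℤ, r ≤ j ∧ M r ∧ L (r - 1) = L j then L j + 1 else L j

/-- The integer field. -/
noncomputable def Lf (T m : ℤ) (w : ℤ → Bool) : ℕ → ℤ → ℤ
  | 0 => fun j => m * j / T
  | (i + 1) => step (fun r => w (-((i : ℤ) + 1)) ≠ w r) (Lf T m w i)

/-- Abstract torus field: `U` = top edges, `W` = right edges. -/
structure TF (X T : ℕ) [NeZero X] [NeZero T] (σ : ZMod X → Bool) (θ : ZMod T → Bool)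
    (m A : ℤ) (U W : ZMod X → ZMod T → ℤ) : Prop where
  U01 : ∀ i j, U i j = 0 ∨ U i j = 1
  W01 : ∀ i j, W i j = 0 ∨ W i j = 1
  cons : ∀ i j, W (i - 1) j + U i j = U i (j - 1) + W i j
  mat : ∀ i j, σ i ≠ θ j → W (i - 1) j + U i j = 1
  misU : ∀ i j, σ i = θ j → U i j ≤ U i (j - 1)
  misW : ∀ i j, σ i = θ j → W i j ≤ W (i - 1) j
  sumW : ∀ i, ∑ j, W i j = m
  sumU : ∀ j, ∑ i, U i j = A
  balσ : 2 * (univ.filter fun i => σ i = true).card = X
  balθ : 2 * (univ.filter fun j => θ j = true).card = T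

/-- mismatch indicator -/
def mis {X T : ℕ} (σ : ZMod X → Bool) (θ : ZMod T → Bool) (i : ZMod X) (j : ZMod T) : ℤ :=
  if σ i = θ j then 1 else 0

/-- number of mismatched active cells of row `j` -/
def aRow {X T : ℕ} [NeZero X] (σ : ZMod X → Bool) (θ : ZMod T → Bool)
    (U : ZMod X → ZMod T → ℤ) (j : ZMod T) : ℤ := ∑ i, mis σ θ i j * U i j

/-- twice `B̂` -/
def B2 {X T : ℕ} [NeZero X] [NeZero T] (σ : ZMod X → Bool) (θ : ZMod T → Bool)
    (W : ZMod X → ZMod T → ℤ) : ℤ := ∑ i, ∑ j, mis σ θ i j * (W i j + W (i - 1) j)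

/-- the transposed field -/
theorem TF.transpose {X T : ℕ} [NeZero X] [NeZero T] {σ : ZMod X → Bool} {θ : ZMod T → Bool}
    {m A : ℤ} {U W : ZMod X → ZMod T → ℤ} (h : TF X T σ θ m A U W) :
    TF T X θ σ A m (fun j i => W i j) (fun j i => U i j) where
  U01 j i := h.W01 i j
  W01 j i := h.U01 i j
  cons j i := (h.cons i j).symm
  mat j i hij := by
    have h1 := h.cons i j
    have h2 := h.mat i j (Ne.symm hij)
    show U i (j - 1) + W i j = 1
    omega
  misU j i hij := h.misW i j hij.symm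
  misW j i hij := h.misU i j hij.symm
  sumW := h.sumU
  sumU := h.sumW
  balσ := h.balθ
  balθ := h.balσ

end Pool.Agent.H95.NP
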