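import Pool.Agent.H95.NP.Evo

/-!
# Row NP/Bnd: growth bound of the field

`Lf_bound`: take the chain `I, J` (`c` cells).  Group `t < c` by `q t = (I t + J t)/T` (floor).  In one class the
points `x = q T - I t` (decreasing), `y = J t` (increasing) satisfy `x < y < x + T` (equality `x = y` is
impossible because `w (-I t) ≠ w (J t)` and `w (q T - I t) = w (-I t)`), so the class has at most `m` elements
(enumerate it increasingly with `Finset.orderEmbOfFin`).  The classes lie in `[j0/T, (i+j)/T]`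
(floors; `I t + J t > j0`), so by `Finset.card_le_mul_card_image`
`c ≤ m * ((i+j)/T - j0/T + 1)`.  `Lf i j = m j0 / T + c`.  Multiply by `T`.
-/

namespace Pool.Agent.H95.NP

open Finset

theorem Bnd_class (T : ℤ) (w : ℤ → Bool) (hT : 0 < T) (hw : ∀ x, w (x + T) = w x)
    (c : ℕ) (I J : ℕ → ℤ) (h3 : ∀ s t, s < t → t < c → I s < I t ∧ J s < J t)
    (h4 : ∀ t, t < c → w (-(I t)) ≠ w (J t)) (a : ℤ) :
    Nested T w ((range c).filter fun t => (I t + J t) / T = a).card := by
  classical
  set F := (range c).filter fun t => (I t + J t) / T = a with hF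
  set e := F.orderEmbOfFin rfl with he
  have hwa : ∀ (k : ℕ) (x : ℤ), w (x + k * T) = w x := by
    intro k x
    induction k with
    | zero => simp
    | succ k ih =>
      have : x + ((k + 1 : ℕ) : ℤ) * T = x + k * T + T := by push_cast; ring
      rw [this, hw, ih]
  have hwz : ∀ (k : ℤ) (x : ℤ), w (k * T + x) = w x := by
    intro k x
    rcases Int.le_total 0 k with hk | hk
    · obtain ⟨n, rfl⟩ := Int.eq_ofNat_of_zero_le hk
      rw [add_comm]; exact hwa n x
    · obtain ⟨n, hn⟩ := Int.eq_ofNat_of_zero_le (by omega : 0 ≤ -k)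
      have h5 := hwa n (k * T + x)
      have h6 : k * T + x + (n : ℤ) * T = x := by
        have : (n : ℤ) = -k := hn.symm
        rw [this]; ring
      rw [h6] at h5
      exact h5.symm
  have hmem : ∀ t, e t ∈ F := fun t => Finset.orderEmbOfFin_mem F rfl t
  refine ⟨fun t => if h : t < F.card then a * T - I (e ⟨t, h⟩) else 0,
    fun t => if h : t < F.card then J (e ⟨t, h⟩) else 0, ?_, ?_⟩
  · intro s t hst ht
    have hs : s < F.card := by omega
    simp only [hs, ht, dif_pos]
    have h5 : e ⟨s, hs⟩ < e ⟨t, ht⟩ := by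
      apply e.strictMono
      exact hst
    have h6 := hmem ⟨t, ht⟩
    simp only [hF, mem_filter, mem_range] at h6
    have h7 := h3 _ _ h5 h6.1
    constructor
    · linarith [h7.1]
    · exact h7.2
  · intro t ht
    simp only [ht, dif_pos]
    have h6 := hmem ⟨t, ht⟩
    simp only [hF, mem_filter, mem_range] at h6
    obtain ⟨h7, h8⟩ := h6
    have h9 := h4 _ h7
    have h10 : a * T ≤ I (e ⟨t, ht⟩) + J (e ⟨t, ht⟩) := by
      rw [← h8]; exact Int.ediv_mul_le _ hT.ne'
    have h11 : I (e ⟨t, ht⟩) + J (e ⟨t, ht⟩) < a * T + T := by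
      rw [← h8]
      have := Int.lt_ediv_add_one_mul_self (I (e ⟨t, ht⟩) + J (e ⟨t, ht⟩)) hT
      linarith
    have h12 : w (a * T - I (e ⟨t, ht⟩)) = w (-(I (e ⟨t, ht⟩))) := by
      rw [sub_eq_add_neg]; exact hwz _ _
    have h13 : a * T ≠ I (e ⟨t, ht⟩) + J (e ⟨t, ht⟩) := by
      intro h
      apply h9
      rw [← h12]
      congr 1
      linarith
    refine ⟨?_, by linarith, by rw [h12]; exact h9⟩
    have := lt_of_le_of_ne h10 h13
    linarith

theorem Lf_bound (T m : ℤ) (w : ℤ → Bool) (hT : 0 < T) (hm : 0 ≤ m) (hw : ∀ x, w (x + T) = w x)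
    (hmax : ∀ r : ℕ, Nested T w r → (r : ℤ) ≤ m) (i : ℕ) (j : ℤ) :
    T * Lf T m w i j ≤ m * (i + j) + 2 * m * T := by
  classical
  obtain ⟨c, j0, I, J, h1, h2, h3, h4⟩ := Lf_chain T m w i j
  have hclass : ∀ a ∈ (range c).image (fun t => (I t + J t) / T),
      ((range c).filter fun t => (I t + J t) / T = a).card ≤ m.toNat := by
    intro a _
    have h5 := hmax _ (Bnd_class T w hT hw c I J h3 (fun t ht => (h4 t ht).2.2.2.2) a)
    omega
  have h6 := Finset.card_le_mul_card_image (range c) m.toNat hclass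
  rw [card_range] at h6
  have h7 : (range c).image (fun t => (I t + J t) / T) ⊆ Finset.Icc (j0 / T) ((i + j) / T) := by
    intro a ha
    simp only [mem_image, mem_range] at ha
    obtain ⟨t, ht, rfl⟩ := ha
    obtain ⟨a1, a2, a3, a4, _⟩ := h4 t ht
    rw [Finset.mem_Icc]
    exact ⟨Int.ediv_le_ediv hT (by linarith), Int.ediv_le_ediv hT (by linarith)⟩
  have h8 := Finset.card_le_card h7
  rw [Int.card_Icc] at h8
  have h9 : j0 / T ≤ (i + j) / T := Int.ediv_le_ediv hT (by
    have : (0 : ℤ) ≤ i := by positivity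
    linarith)
  have h10 : (c : ℤ) ≤ m * ((i + j) / T + 1 - j0 / T) := by
    have e1 : ((((range c).image (fun t => (I t + J t) / T)).card : ℕ) : ℤ)
        ≤ (i + j) / T + 1 - j0 / T := by omega
    have e2 : (c : ℤ) ≤ (m.toNat : ℤ) * (((range c).image (fun t => (I t + J t) / T)).card : ℕ) := by
      exact_mod_cast h6
    rw [Int.toNat_of_nonneg hm] at e2
    exact e2.trans (mul_le_mul_of_nonneg_left e1 hm)
  have h11 : T * (m * j0 / T) ≤ m * j0 := Int.mul_ediv_self_le hT.ne'
  have h12 : T * ((i + j) / T) ≤ i + j := Int.mul_ediv_self_le hT.ne'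
  have h13 : j0 < (j0 / T + 1) * T := Int.lt_ediv_add_one_mul_self j0 hT
  rw [h2]
  have h14 : T * (c : ℤ) ≤ T * (m * ((i + j) / T + 1 - j0 / T)) :=
    mul_le_mul_of_nonneg_left h10 hT.le
  have h15 : m * (T * ((i + j) / T)) ≤ m * (i + j) := mul_le_mul_of_nonneg_left h12 hm
  have h16 : m * j0 ≤ m * ((j0 / T + 1) * T) := mul_le_mul_of_nonneg_left h13.le hm
  nlinarith [h11, h14, h15, h16]

end Pool.Agent.H95.NP
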