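import Pool.Agent.H95.NP.Lay

/-!
# Row NP/Com: combination

## `comb`
Real arithmetic.  Suppose `4000 m ≤ 1047 T`.  Put `a = A/X`, `b = m/T`, `r = 0.1084`,
`α' = (∑ j, aRow σ θ U j)/(X T)`, `β' = (∑ i, aRow θ σ Wᵗ i)/(X T)`, `η = a + b - 1/2`,
`α^ = B2 θ σ Uᵗ /(2XT)`, `β^ = B2 σ θ W/(2XT)`; `α^ + β^ = η`, `α' + β' ≤ η` (misU, misW), all `≥ 0`.
`layer` with `Q = ⌈r X⌉₊` gives `a b - β^ ≤ b r + a α'/r`; `layer` for the transposed field with
`Q = ⌈r T⌉₊` gives `a b - α^ ≤ a r + b β'/r`  (the transposed field needs `2 A ≤ X`, which follows from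
`T A ≤ m X` and `2 m ≤ T`).  Sum, `a ≤ b`:
`(1/2 - a)(1/2 - b) = a b - η/2 ≤ ((a+b) r + b η / r)/2 ≤ b r + b (2 b - 1/2)/(2 r)`,
`(1/2-a)(1/2-b) ≥ (1/2-b)^2`; with `b ≤ 0.26175` this is false
(`0.23825^2 = 0.0567631 > 0.26175 * (0.1084 + 0.0235/0.2168) = 0.0567462`; the difference is monotone in `b`).
-/

namespace Pool.Agent.H95.NP

open Finset

/-- One row inequality with `Q = ⌈r X⌉₊`, in real form. -/
theorem Com_real {X T : ℕ} [NeZero X] [NeZero T] {σ : ZMod X → Bool} {θ : ZMod T → Bool}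
    {m A : ℤ} {U W : ZMod X → ZMod T → ℤ} (h : TF X T σ θ m A U W) (hm : 2 * m ≤ T)
    (r : ℝ) (hr : 0 < r) (hm0 : 0 ≤ m) (hA0 : 0 ≤ A) :
    2 * (m : ℝ) * A - B2 σ θ W ≤ 2 * m * (r * X) + 2 * A * (∑ j, aRow σ θ U j : ℤ) / (r * X) := by
  have hX : 0 < (X : ℝ) := by exact_mod_cast Nat.pos_of_ne_zero (NeZero.ne X)
  have hrX : 0 < r * X := by positivity
  set Q := ⌈r * X⌉₊ with hQ
  have hQ1 : r * X ≤ Q := Nat.le_ceil _
  have hQ2 : (Q : ℝ) < r * X + 1 := Nat.ceil_lt_add_one hrX.le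
  have hQ0 : 0 < (Q : ℝ) := lt_of_lt_of_le hrX hQ1
  have h1 := layer h hm Q
  have h2 : (Q : ℝ) * (2 * m * A - B2 σ θ W) ≤ 2 * m * (Q * (Q - 1))
      + 2 * A * (∑ j, aRow σ θ U j : ℤ) := by exact_mod_cast h1
  have ha0 : (0 : ℝ) ≤ (∑ j, aRow σ θ U j : ℤ) := by
    exact_mod_cast Finset.sum_nonneg fun j _ => aRow_nonneg h j
  have hm0' : (0 : ℝ) ≤ m := by exact_mod_cast hm0
  have hA0' : (0 : ℝ) ≤ A := by exact_mod_cast hA0
  have h3 : 2 * (m : ℝ) * A - B2 σ θ W ≤ 2 * m * (Q - 1)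
      + 2 * A * (∑ j, aRow σ θ U j : ℤ) / Q := by
    have h4 : 2 * (m : ℝ) * (Q - 1) + 2 * A * (∑ j, aRow σ θ U j : ℤ) / Q
        = (2 * m * (Q * (Q - 1)) + 2 * A * (∑ j, aRow σ θ U j : ℤ)) / Q := by
      field_simp
    rw [h4, le_div_iff₀ hQ0]
    linarith
  have h5 : 2 * (A : ℝ) * (∑ j, aRow σ θ U j : ℤ) / Q ≤
      2 * A * (∑ j, aRow σ θ U j : ℤ) / (r * X) := by
    apply div_le_div_of_nonneg_left _ hrX hQ1
    positivity
  have h6 : 2 * (m : ℝ) * (Q - 1) ≤ 2 * m * (r * X) := by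
    apply mul_le_mul_of_nonneg_left _ (by positivity)
    linarith
  linarith

/-- `a ≤ b` forces `b > 0.26175`. -/
theorem comb {X T : ℕ} [NeZero X] [NeZero T] {σ : ZMod X → Bool} {θ : ZMod T → Bool}
    {m A : ℤ} {U W : ZMod X → ZMod T → ℤ} (h : TF X T σ θ m A U W) (hm : 2 * m ≤ T)
    (hAm : T * A ≤ m * X) : 1047 * (T : ℤ) < 4000 * m := by
  by_contra hcon
  push Not at hcon
  have hXi : 0 < (X : ℤ) := by exact_mod_cast Nat.pos_of_ne_zero (NeZero.ne X)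
  have hTi : 0 < (T : ℤ) := by exact_mod_cast Nat.pos_of_ne_zero (NeZero.ne T)
  have hX : 0 < (X : ℝ) := by exact_mod_cast hXi
  have hT : 0 < (T : ℝ) := by exact_mod_cast hTi
  have hA0 : 0 ≤ A := by
    rw [← h.sumU 0]
    refine Finset.sum_nonneg fun i _ => ?_
    rcases h.U01 i 0 with h | h <;> omega
  have hm0 : 0 ≤ m := by
    rw [← h.sumW 0]
    refine Finset.sum_nonneg fun i _ => ?_
    rcases h.W01 0 i with h | h <;> omega
  have h2A : 2 * A ≤ X := by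
    have h1 : (T : ℤ) * (2 * A) ≤ T * X := by nlinarith
    exact le_of_mul_le_mul_left h1 hTi
  have hm0' : (0 : ℝ) ≤ m := by exact_mod_cast hm0
  have hA0' : (0 : ℝ) ≤ A := by exact_mod_cast hA0
  set r : ℝ := 271 / 2500 with hr
  have hr0 : 0 < r := by rw [hr]; norm_num
  have k1 := Com_real h hm r hr0 hm0 hA0
  have k2 := Com_real h.transpose h2A r hr0 hA0 hm0
  have k3 : ((B2 σ θ W : ℤ) : ℝ) + (B2 θ σ (fun j i => U i j) : ℤ) =
      2 * m * X + 2 * A * T - X * T := by exact_mod_cast total h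
  have k4 : 2 * ((∑ j, aRow σ θ U j : ℤ) : ℝ) ≤ (B2 θ σ (fun j i => U i j) : ℤ) := by
    exact_mod_cast two_aRow_le h
  have k5 : 2 * ((∑ i, aRow θ σ (fun j i => W i j) i : ℤ) : ℝ) ≤ (B2 σ θ W : ℤ) := by
    exact_mod_cast two_aRow_le h.transpose
  have a0 : (0 : ℝ) ≤ (∑ j, aRow σ θ U j : ℤ) := by
    exact_mod_cast Finset.sum_nonneg fun j _ => aRow_nonneg h j
  have b0 : (0 : ℝ) ≤ (∑ i, aRow θ σ (fun j i => W i j) i : ℤ) := by
    exact_mod_cast Finset.sum_nonneg fun j _ => aRow_nonneg h.transpose j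
  generalize ((∑ j, aRow σ θ U j : ℤ) : ℝ) = a' at k1 k4 a0
  generalize ((∑ i, aRow θ σ (fun j i => W i j) i : ℤ) : ℝ) = b' at k2 k5 b0
  generalize ((B2 σ θ W : ℤ) : ℝ) = B at k1 k3 k5
  generalize ((B2 θ σ (fun j i => U i j) : ℤ) : ℝ) = C at k2 k3 k4
  -- normalised quantities
  obtain ⟨b, hb⟩ : ∃ b : ℝ, b * T = m := ⟨m / T, by field_simp⟩
  obtain ⟨a, ha⟩ : ∃ a : ℝ, a * X = A := ⟨A / X, by field_simp⟩
  have hb0 : 0 ≤ b := by
    by_contra hneg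
    push Not at hneg
    have := mul_neg_of_neg_of_pos hneg hT
    linarith
  have ha0 : 0 ≤ a := by
    by_contra hneg
    push Not at hneg
    have := mul_neg_of_neg_of_pos hneg hX
    linarith
  have hab : a ≤ b := by
    have h1 : (T : ℝ) * A ≤ m * X := by exact_mod_cast hAm
    rw [← ha, ← hb] at h1
    have h2 : a * (T * X) ≤ b * (T * X) := by nlinarith
    exact le_of_mul_le_mul_right h2 (by positivity)
  have hb1 : b ≤ 1047 / 4000 := by
    have h1 : 4000 * (m : ℝ) ≤ 1047 * T := by exact_mod_cast hcon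
    rw [← hb] at h1
    have h2 : b * T ≤ 1047 / 4000 * T := by linarith
    exact le_of_mul_le_mul_right h2 hT
  rw [← ha, ← hb] at k1 k2 k3
  have e1 : 2 * (a * X) * a' / (r * X) = 2 * a / r * a' := by field_simp
  have e2 : 2 * (b * T) * b' / (r * T) = 2 * b / r * b' := by field_simp
  rw [e1] at k1
  rw [e2] at k2
  have hbr : 0 ≤ 2 * b / r := by positivity
  have e3 : 2 * a / r * a' ≤ 2 * b / r * a' := by
    apply mul_le_mul_of_nonneg_right _ a0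
    apply div_le_div_of_nonneg_right _ hr0.le
    linarith
  have e4 : 2 * b / r * (a' + b') ≤ 2 * b / r * ((2 * (b * T) * X + 2 * (a * X) * T - X * T) / 2) :=
    mul_le_mul_of_nonneg_left (by linarith) hbr
  -- collect
  have e5 : (T * X) * ((1 - 2 * a) * (1 - 2 * b)) ≤
      (T * X) * (2 * r * (a + b) + 2 * b / r * (a + b - 1 / 2)) := by
    have e6 : (T * X) * (2 * b / r * (a + b - 1 / 2)) =
        2 * b / r * ((2 * (b * T) * X + 2 * (a * X) * T - X * T) / 2) := by ring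
    have e7 : 2 * b / r * (a' + b') = 2 * b / r * a' + 2 * b / r * b' := by ring
    nlinarith [k1, k2, k3, e3, e4, e6, e7]
  have e8 : (1 - 2 * a) * (1 - 2 * b) ≤ 2 * r * (a + b) + 2 * b / r * (a + b - 1 / 2) :=
    le_of_mul_le_mul_left e5 (by positivity)
  have e9 : (1 - 2 * b) * (1 - 2 * b) ≤ (1 - 2 * a) * (1 - 2 * b) :=
    mul_le_mul_of_nonneg_right (by linarith) (by linarith)
  have e10 : 2 * r * (a + b) ≤ 2 * r * (2 * b) := mul_le_mul_of_nonneg_left (by linarith) (by positivity)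
  have e11 : 2 * b / r * (a + b - 1 / 2) ≤ 2 * b / r * (2 * b - 1 / 2) :=
    mul_le_mul_of_nonneg_left (by linarith) hbr
  have e12 : (1 - 2 * b) * (1 - 2 * b) ≤ 2 * r * (2 * b) + 2 * b / r * (2 * b - 1 / 2) := by
    linarith
  rw [hr] at e12
  nlinarith [mul_nonneg hb0 (sub_nonneg.mpr hb1)]

end Pool.Agent.H95.NP
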