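import Pool.Agent.H95.NP.Pig
import Pool.Agent.H95.NP.Com

/-!
# Row NP/Core: the combinatorial theorem
`Nested T w r → 2 * r ≤ T`: the `2r` integers `x t, y t` lie in `(x (r-1) - 1, x (r-1) + T)` and are distinct
(or: `y t - x t` increases by at least 2).  `Nested T w 0` holds.  Let `m` be the largest `r`; apply
`exists_TF` and `comb`.
-/

namespace Pool.Agent.H95.NP

open Finset

theorem Nested.two_mul_le {T : ℤ} {w : ℤ → Bool} {r : ℕ} (hT : 0 ≤ T) (h : Nested T w r) :
    2 * (r : ℤ) ≤ T := by
  obtain ⟨x, y, h1, h2⟩ := h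
  rcases Nat.eq_zero_or_pos r with hr | hr
  · subst hr; simpa using hT
  · have key : ∀ t, t < r → x t + (2 * t + 1) ≤ y t := by
      intro t
      induction t with
      | zero =>
        intro ht
        have := (h2 0 ht).1
        simp only [Nat.cast_zero, mul_zero, zero_add]
        omega
      | succ t ih =>
        intro ht
        have e1 := ih (by omega)
        have e2 := h1 t (t + 1) (by omega) ht
        push_cast
        omega
    have e3 := key (r - 1) (by omega)
    have e4 := (h2 (r - 1) (by omega)).2.1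
    have e5 : ((r - 1 : ℕ) : ℤ) = (r : ℤ) - 1 := by omega
    rw [e5] at e3
    omega

theorem core (n : ℕ) (hn : 1 ≤ n) (w : ℤ → Bool) (hw : ∀ x, w (x + (2 * n : ℕ)) = w x)
    (hbal : ((range (2 * n)).filter fun x : ℕ => w (x : ℤ) = true).card = n) :
    ∃ m : ℕ, Nested ((2 * n : ℕ) : ℤ) w m ∧ 1047 * n < 2000 * m := by
  classical
  have : NeZero (2 * n) := ⟨by omega⟩
  have h0 : Nested ((2 * n : ℕ) : ℤ) w 0 :=
    ⟨fun _ => 0, fun _ => 0, fun s t _ ht => by omega, fun t ht => by omega⟩
  set m := Nat.findGreatest (fun r => Nested ((2 * n : ℕ) : ℤ) w r) n with hm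
  have hspec : Nested ((2 * n : ℕ) : ℤ) w m :=
    Nat.findGreatest_spec (P := fun r => Nested ((2 * n : ℕ) : ℤ) w r) (Nat.zero_le n) h0
  have hmax : ∀ r : ℕ, Nested ((2 * n : ℕ) : ℤ) w r → (r : ℤ) ≤ (m : ℤ) := by
    intro r hr
    have h1 := hr.two_mul_le (by positivity)
    have h2 : r ≤ n := by
      push_cast at h1; omega
    exact_mod_cast Nat.le_findGreatest h2 hr
  have hle := hspec.two_mul_le (by positivity)
  obtain ⟨X, hX, σ, θ, A, U, W, hTF, hA⟩ := exists_TF (2 * n) (m : ℤ) w (by positivity)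
    (by have : (0 : ℤ) ≤ m := by positivity
        linarith) hw (by rw [hbal]) hmax
  have h3 := comb hTF hle hA
  refine ⟨m, hspec, ?_⟩
  have h4 : (1047 : ℤ) * n < 2000 * m := by push_cast at h3; linarith
  exact_mod_cast h4

end Pool.Agent.H95.NP
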