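import Pool.Agent.H95.NP.Defs

/-!
# Row NP/Evo: properties of the field `Lf`, and the trace lemma

`step` on a profile `L` with `0 ≤ L j - L (j-1) ≤ 1`; write `P j := ∃ r ≤ j, M r ∧ L (r-1) = L j`.
* if `L j = L (j-1) + 1` then `¬ P j` (since `L (r-1) ≤ L (j-1) < L j`);
* if `L j = L (j-1)` then `P (j-1) → P j`.
Hence `0 ≤ step j - step (j-1) ≤ 1`; if `M j` then `step j = L (j-1) + 1`; if `¬ M j` then `step j = L j` or
`step j = step (j-1)` (if `P j` then `L j = L (j-1)`, the witness `r ≠ j`, so `P (j-1)`).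

`Lf_chain`: induction on `i`.  `i = 0`: `j0 = j`, `c = 0`.  `i+1`: if `¬ P j` use `(i, j)`; if `P j` with witness
`r`, `Lf (i+1) j = Lf i (r-1) + 1`; take the chain of `(i, r-1)` and append the cell `(i+1, r)`.

-/

namespace Pool.Agent.H95.NP

open Finset

theorem Evo_mono {L : ℤ → ℤ} (hL : ∀ j, L j - L (j - 1) = 0 ∨ L j - L (j - 1) = 1) :
    Monotone L := by
  apply monotone_int_of_le_succ
  intro n
  have h := hL (n + 1)
  rw [add_sub_cancel_right] at h
  omega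

theorem Evo_pos {M : ℤ → Prop} {L : ℤ → ℤ} {j : ℤ}
    (h : ∃ r : ℤ, r ≤ j ∧ M r ∧ L (r - 1) = L j) : step M L j = L j + 1 := by
  unfold step
  exact if_pos h

theorem Evo_neg {M : ℤ → Prop} {L : ℤ → ℤ} {j : ℤ}
    (h : ¬ ∃ r : ℤ, r ≤ j ∧ M r ∧ L (r - 1) = L j) : step M L j = L j := by
  unfold step
  exact if_neg h

theorem Evo_jump {M : ℤ → Prop} {L : ℤ → ℤ}
    (hL : ∀ j, L j - L (j - 1) = 0 ∨ L j - L (j - 1) = 1) {j : ℤ} (h : L j = L (j - 1) + 1) :
    ¬ ∃ r : ℤ, r ≤ j ∧ M r ∧ L (r - 1) = L j := by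
  rintro ⟨r, hr, -, h1⟩
  have h2 : L (r - 1) ≤ L (j - 1) := Evo_mono hL (by omega)
  omega

theorem Evo_step_diff {M : ℤ → Prop} {L : ℤ → ℤ}
    (hL : ∀ j, L j - L (j - 1) = 0 ∨ L j - L (j - 1) = 1) (j : ℤ) :
    step M L j - step M L (j - 1) = 0 ∨ step M L j - step M L (j - 1) = 1 := by
  rcases hL j with h | h
  · by_cases hP : ∃ r : ℤ, r ≤ j ∧ M r ∧ L (r - 1) = L j
    · rw [Evo_pos hP]
      by_cases hP' : ∃ r : ℤ, r ≤ j - 1 ∧ M r ∧ L (r - 1) = L (j - 1)
      · rw [Evo_pos hP']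
        omega
      · rw [Evo_neg hP']
        omega
    · rw [Evo_neg hP]
      have hP' : ¬ ∃ r : ℤ, r ≤ j - 1 ∧ M r ∧ L (r - 1) = L (j - 1) := by
        rintro ⟨r, hr, hM, h1⟩
        exact hP ⟨r, by omega, hM, by omega⟩
      rw [Evo_neg hP']
      omega
  · rw [Evo_neg (Evo_jump hL (by omega))]
    by_cases hP' : ∃ r : ℤ, r ≤ j - 1 ∧ M r ∧ L (r - 1) = L (j - 1)
    · rw [Evo_pos hP']
      omega
    · rw [Evo_neg hP']
      omega

theorem Evo_zero (T m : ℤ) (hT : 0 < T) (hm : 0 ≤ m) (hmT : m ≤ T) (j : ℤ) :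
    m * j / T - m * (j - 1) / T = 0 ∨ m * j / T - m * (j - 1) / T = 1 := by
  have h1 : m * j = m * (j - 1) + m := by ring
  rw [h1]
  generalize m * (j - 1) = a
  have h2 := Int.emod_add_mul_ediv a T
  have h3 := Int.emod_nonneg a hT.ne'
  have h4 := Int.emod_lt_of_pos a hT
  have h5 : a / T ≤ (a + m) / T := Int.ediv_le_ediv hT (by omega)
  have h6 : (a + m) / T < a / T + 2 := by
    apply Int.ediv_lt_of_lt_mul hT
    have h7 : (a / T + 2) * T = T * (a / T) + 2 * T := by ring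
    rw [h7]
    omega
  omega

theorem Lf_diff (T m : ℤ) (w : ℤ → Bool) (hT : 0 < T) (hm : 0 ≤ m) (hmT : m ≤ T) (i : ℕ) (j : ℤ) :
    Lf T m w i j - Lf T m w i (j - 1) = 0 ∨ Lf T m w i j - Lf T m w i (j - 1) = 1 := by
  induction i generalizing j with
  | zero =>
    simp only [Lf]
    exact Evo_zero T m hT hm hmT j
  | succ i ih =>
    simp only [Lf]
    exact Evo_step_diff ih j

theorem Lf_period (T m : ℤ) (w : ℤ → Bool) (hT : 0 < T) (hw : ∀ x, w (x + T) = w x) (i : ℕ) (j : ℤ) :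
    Lf T m w i (j + T) = Lf T m w i j + m := by
  induction i generalizing j with
  | zero =>
    simp only [Lf]
    rw [mul_add, Int.add_mul_ediv_right _ _ hT.ne']
  | succ i ih =>
    simp only [Lf]
    by_cases hP : ∃ r : ℤ, r ≤ j ∧ w (-((i : ℤ) + 1)) ≠ w r ∧ Lf T m w i (r - 1) = Lf T m w i j
    · have hP' : ∃ r : ℤ, r ≤ j + T ∧ w (-((i : ℤ) + 1)) ≠ w r ∧
          Lf T m w i (r - 1) = Lf T m w i (j + T) := by
        obtain ⟨r, hr, hM, h1⟩ := hP
        refine ⟨r + T, by omega, ?_, ?_⟩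
        · rw [hw]
          exact hM
        · have h2 : r + T - 1 = (r - 1) + T := by ring
          rw [h2, ih, ih, h1]
      rw [Evo_pos (M := fun r => w (-((i : ℤ) + 1)) ≠ w r) hP,
        Evo_pos (M := fun r => w (-((i : ℤ) + 1)) ≠ w r) hP', ih]
      ring
    · have hP' : ¬ ∃ r : ℤ, r ≤ j + T ∧ w (-((i : ℤ) + 1)) ≠ w r ∧
          Lf T m w i (r - 1) = Lf T m w i (j + T) := by
        rintro ⟨r, hr, hM, h1⟩
        refine hP ⟨r - T, by omega, ?_, ?_⟩
        · have h2 := hw (r - T)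
          rw [sub_add_cancel] at h2
          rw [← h2]
          exact hM
        · have h3 := ih (r - T - 1)
          have h4 : r - T - 1 + T = r - 1 := by ring
          rw [h4, h1, ih] at h3
          omega
      rw [Evo_neg (M := fun r => w (-((i : ℤ) + 1)) ≠ w r) hP,
        Evo_neg (M := fun r => w (-((i : ℤ) + 1)) ≠ w r) hP', ih]

theorem Lf_up (T m : ℤ) (w : ℤ → Bool) (i : ℕ) (j : ℤ) :
    Lf T m w (i + 1) j - Lf T m w i j = 0 ∨ Lf T m w (i + 1) j - Lf T m w i j = 1 := by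
  simp only [Lf]
  by_cases hP : ∃ r : ℤ, r ≤ j ∧ w (-((i : ℤ) + 1)) ≠ w r ∧ Lf T m w i (r - 1) = Lf T m w i j
  · rw [Evo_pos (M := fun r => w (-((i : ℤ) + 1)) ≠ w r) hP]
    omega
  · rw [Evo_neg (M := fun r => w (-((i : ℤ) + 1)) ≠ w r) hP]
    omega

theorem Lf_match (T m : ℤ) (w : ℤ → Bool) (hT : 0 < T) (hm : 0 ≤ m) (hmT : m ≤ T) (i : ℕ) (j : ℤ)
    (h : w (-((i : ℤ) + 1)) ≠ w j) : Lf T m w (i + 1) j = Lf T m w i (j - 1) + 1 := by
  simp only [Lf]
  have hL := Lf_diff T m w hT hm hmT i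
  rcases hL j with h1 | h1
  · rw [Evo_pos (M := fun r => w (-((i : ℤ) + 1)) ≠ w r) ⟨j, le_rfl, h, by omega⟩]
    omega
  · rw [Evo_neg (Evo_jump hL (by omega))]
    omega

theorem Lf_mismatch (T m : ℤ) (w : ℤ → Bool) (hT : 0 < T) (hm : 0 ≤ m) (hmT : m ≤ T) (i : ℕ) (j : ℤ)
    (h : w (-((i : ℤ) + 1)) = w j) :
    Lf T m w (i + 1) j = Lf T m w i j ∨ Lf T m w (i + 1) j = Lf T m w (i + 1) (j - 1) := by
  simp only [Lf]
  have hL := Lf_diff T m w hT hm hmT i
  by_cases hP : ∃ r : ℤ, r ≤ j ∧ w (-((i : ℤ) + 1)) ≠ w r ∧ Lf T m w i (r - 1) = Lf T m w i j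
  · right
    have h1 : Lf T m w i j = Lf T m w i (j - 1) := by
      rcases hL j with h2 | h2
      · omega
      · exact absurd hP (Evo_jump (M := fun r => w (-((i : ℤ) + 1)) ≠ w r) hL (by omega))
    obtain ⟨r, hr, hM, h2⟩ := hP
    have hrj : r ≠ j := by
      rintro rfl
      exact hM h
    have hP' : ∃ r : ℤ, r ≤ j - 1 ∧ w (-((i : ℤ) + 1)) ≠ w r ∧
        Lf T m w i (r - 1) = Lf T m w i (j - 1) := ⟨r, by omega, hM, by omega⟩
    rw [Evo_pos (M := fun r => w (-((i : ℤ) + 1)) ≠ w r) ⟨r, hr, hM, h2⟩,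
      Evo_pos (M := fun r => w (-((i : ℤ) + 1)) ≠ w r) hP']
    omega
  · left
    exact Evo_neg (M := fun r => w (-((i : ℤ) + 1)) ≠ w r) hP

theorem Lf_chain (T m : ℤ) (w : ℤ → Bool) (i : ℕ) (j : ℤ) :
    ∃ (c : ℕ) (j0 : ℤ) (I J : ℕ → ℤ), j0 ≤ j ∧ Lf T m w i j = m * j0 / T + c ∧
      (∀ s t, s < t → t < c → I s < I t ∧ J s < J t) ∧
      (∀ t, t < c → 1 ≤ I t ∧ I t ≤ i ∧ j0 < J t ∧ J t ≤ j ∧ w (-(I t)) ≠ w (J t)) := by
  induction i generalizing j with
  | zero =>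
    refine ⟨0, j, fun _ => 0, fun _ => 0, le_rfl, ?_, ?_, ?_⟩
    · simp [Lf]
    · intro s t _ ht
      exact absurd ht (Nat.not_lt_zero _)
    · intro t ht
      exact absurd ht (Nat.not_lt_zero _)
  | succ i ih =>
    by_cases hP : ∃ r : ℤ, r ≤ j ∧ w (-((i : ℤ) + 1)) ≠ w r ∧ Lf T m w i (r - 1) = Lf T m w i j
    · have h0 : Lf T m w (i + 1) j = Lf T m w i j + 1 := by
        simp only [Lf]
        exact Evo_pos (M := fun r => w (-((i : ℤ) + 1)) ≠ w r) hP
      obtain ⟨r, hr, hM, h1⟩ := hP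
      obtain ⟨c, j0, I, J, hj0, hval, hmono, hcell⟩ := ih (r - 1)
      refine ⟨c + 1, j0, fun t => if t = c then (i : ℤ) + 1 else I t,
        fun t => if t = c then r else J t, by omega, ?_, ?_, ?_⟩
      · rw [h0, ← h1, hval]
        push_cast
        ring
      · intro s t hst ht
        have hs : s ≠ c := by omega
        have hsc : s < c := by omega
        simp only [if_neg hs]
        by_cases htc : t = c
        · simp only [if_pos htc]
          obtain ⟨-, h2, -, h3, -⟩ := hcell s hsc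
          omega
        · simp only [if_neg htc]
          exact hmono s t hst (by omega)
      · intro t ht
        by_cases htc : t = c
        · simp only [if_pos htc]
          refine ⟨by omega, by push_cast; omega, by omega, hr, hM⟩
        · simp only [if_neg htc]
          obtain ⟨h2, h3, h4, h5, h6⟩ := hcell t (by omega)
          refine ⟨h2, by push_cast; omega, h4, by omega, h6⟩
    · have h0 : Lf T m w (i + 1) j = Lf T m w i j := by
        simp only [Lf]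
        exact Evo_neg (M := fun r => w (-((i : ℤ) + 1)) ≠ w r) hP
      obtain ⟨c, j0, I, J, hj0, hval, hmono, hcell⟩ := ih j
      refine ⟨c, j0, I, J, hj0, by rw [h0, hval], hmono, fun t ht => ?_⟩
      obtain ⟨h2, h3, h4, h5, h6⟩ := hcell t ht
      refine ⟨h2, by push_cast; omega, h4, h5, h6⟩

end Pool.Agent.H95.NP
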