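import Pool.Agent.H95.NP.Defs

/-!
# Row NP/GeoA: abstract noncrossing lemma

`u = j / 2`.  Case `j = 2u`: every point of the segment `p j, p (j+1)` has `F u = 0`.
`z = a • p i + b • p (i+1)`, `i + 1 ≤ 2u`, `F u (p i) < 0`; if `i + 1 < 2u` also `F u (p (i+1)) < 0`, contradiction;
if `i + 1 = 2u` then `a = 0` and `z = p (i+1) = p j`.
Case `j = 2u+1`: `z = a' • p j + b' • p (j+1)`, `F u z = b' F u (p (j+1)) ≥ 0`; `z = a • p i + b • p (i+1)` with
`i ≤ 2u` has `F u z ≤ 0`; hence `b' = 0`, `z = p j`; if `i = 2u` done; if `i = 2u-1` then `a = 0`,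
`z = p (2u) ≠ p (2u+1)`; if `i < 2u-1` then `F u z < 0`.
-/

namespace Pool.Agent.H95.NP

theorem noncross_of_functionals (m : ℕ) (p : ℕ → ℂ) (F : ℕ → ℂ → ℝ)
    (haff : ∀ u, ∀ z z' : ℂ, ∀ a b : ℝ, 0 ≤ a → 0 ≤ b → a + b = 1 →
      F u (a • z + b • z') = a * F u z + b * F u z')
    (hne : ∀ u, u < m → p (2 * u) ≠ p (2 * u + 1))
    (hneg : ∀ u, u < m → ∀ k, k < 2 * u → F u (p k) < 0)
    (hz0 : ∀ u, u < m → F u (p (2 * u)) = 0)
    (hz1 : ∀ u, u < m → F u (p (2 * u + 1)) = 0)
    (hpos : ∀ u, u < m → ∀ k, 2 * u + 2 ≤ k → k < 2 * m → 0 < F u (p k)) :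
    ∀ i j, i < j → j + 1 < 2 * m → ∀ z, z ∈ segment ℝ (p i) (p (i + 1)) →
      z ∈ segment ℝ (p j) (p (j + 1)) → j = i + 1 ∧ z = p j := by
  intro i j hij hj z hz hz'
  obtain ⟨a, b, ha, hb, hab, rfl⟩ := hz
  obtain ⟨a', b', ha', hb', hab', heq⟩ := hz'
  have hend : ∀ u k, u < m → k < 2 * u → ∀ x : ℂ, F u x ≤ 0 → ∀ c d : ℝ, 0 ≤ c → 0 ≤ d →
      c * F u (p k) + d * F u x = 0 → c = 0 := by
    intro u k hu hk x hx c d hc hd h
    by_contra hc0
    have hc1 : 0 < c := lt_of_le_of_ne hc (Ne.symm hc0)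
    have h1 := mul_neg_of_pos_of_neg hc1 (hneg u hu k hk)
    have h2 : d * F u x ≤ 0 := mul_nonpos_of_nonneg_of_nonpos hd hx
    linarith
  rcases Nat.even_or_odd' j with ⟨u, hu | hu⟩
  · subst hu
    have hum : u < m := by omega
    have e1 : F u (a • p i + b • p (i + 1)) = 0 := by
      rw [← heq, haff u _ _ _ _ ha' hb' hab', hz0 u hum, hz1 u hum]; ring
    rw [haff u _ _ _ _ ha hb hab] at e1
    rcases Nat.lt_or_ge (i + 1) (2 * u) with h | h
    · exfalso
      have n1 := hneg u hum i (by omega)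
      have n2 := hneg u hum (i + 1) h
      have a0 := hend u i hum (by omega) _ n2.le a b ha hb e1
      rw [a0, zero_mul, zero_add] at e1
      rw [a0, zero_add] at hab
      rw [hab, one_mul] at e1
      linarith
    · have hi : i + 1 = 2 * u := by omega
      have n2 : F u (p (i + 1)) = 0 := by rw [hi]; exact hz0 u hum
      have a0 := hend u i hum (by omega) _ n2.le a b ha hb e1
      rw [a0, zero_add] at hab
      refine ⟨hi.symm, ?_⟩
      rw [a0, hab, zero_smul, one_smul, zero_add, hi]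
  · subst hu
    have hum : u < m := by omega
    have e1 : F u (a • p i + b • p (i + 1)) = b' * F u (p (2 * u + 1 + 1)) := by
      rw [← heq, haff u _ _ _ _ ha' hb' hab', hz1 u hum]; ring
    have hp := hpos u hum (2 * u + 1 + 1) (by omega) (by omega)
    rw [haff u _ _ _ _ ha hb hab] at e1
    have hnp : ∀ k, k ≤ 2 * u + 1 → F u (p k) ≤ 0 := by
      intro k hk
      rcases Nat.lt_or_ge k (2 * u) with h | h
      · exact (hneg u hum k h).le
      · rcases Nat.eq_or_lt_of_le h with h | h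
        · rw [← h]; exact (hz0 u hum).le
        · have : k = 2 * u + 1 := by omega
          rw [this]; exact (hz1 u hum).le
    have s1 : a * F u (p i) ≤ 0 := mul_nonpos_of_nonneg_of_nonpos ha (hnp i (by omega))
    have s2 : b * F u (p (i + 1)) ≤ 0 := mul_nonpos_of_nonneg_of_nonpos hb (hnp _ (by omega))
    have s3 : 0 ≤ b' * F u (p (2 * u + 1 + 1)) := mul_nonneg hb' hp.le
    have hb0 : b' = 0 := by
      by_contra hne'
      have : 0 < b' := lt_of_le_of_ne hb' (Ne.symm hne')
      have := mul_pos this hp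
      linarith
    rw [hb0, zero_mul] at e1
    have ha1 : a' = 1 := by rw [hb0, add_zero] at hab'; exact hab'
    have hz : a • p i + b • p (i + 1) = p (2 * u + 1) := by
      rw [← heq, ha1, hb0, one_smul, zero_smul, add_zero]
    rcases Nat.lt_or_ge i (2 * u) with h | h
    · exfalso
      have a0 := hend u i hum h _ (hnp _ (by omega)) a b ha hb e1
      rw [a0, zero_add] at hab
      rw [a0, hab, zero_mul, zero_add, one_mul] at e1
      rw [a0, hab, zero_smul, one_smul, zero_add] at hz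
      rcases Nat.lt_or_ge (i + 1) (2 * u) with h' | h'
      · have := hneg u hum (i + 1) h'
        linarith
      · have hi : i + 1 = 2 * u := by omega
        rw [hi] at hz
        exact hne u hum hz
    · have hi : i = 2 * u := by omega
      subst hi
      exact ⟨rfl, hz⟩

end Pool.Agent.H95.NP
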