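import Pool.Agent.H95.NP.Defs

/-!
# Row NP/GeoB: the chord functional of a circle

`chordF c ρ α β z = ρ cos((β-α)/2) - Re ((z-c) exp(-i(α+β)/2))`.
At `z = c + ρ e^{is}` the value is `ρ (cos((β-α)/2) - cos(s - (α+β)/2))`.
With `h = (β-α)/2 ∈ (0, π)` and `δ = s - (α+β)/2`: `α<s<β` iff `|δ| < h` (then `cos δ > cos h`:
`Real.cos_lt_cos_of_nonneg_of_le_pi` with `|δ|`), `β < s < α + 2π` iff `h < δ < 2π - h`
(then `cos δ < cos h`: if `δ ≤ π` monotonicity, if `δ > π` use `cos δ = cos (2π - δ)`).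
-/

namespace Pool.Agent.H95.NP

noncomputable def chordF (c : ℂ) (ρ α β : ℝ) (z : ℂ) : ℝ :=
  ρ * Real.cos ((β - α) / 2) -
    ((z - c) * Complex.exp (-(((α + β) / 2 : ℝ) : ℂ) * Complex.I)).re

/-- point of the circle with angle `s` -/
noncomputable def circ (c : ℂ) (ρ s : ℝ) : ℂ := c + ρ * Complex.exp (s * Complex.I)

theorem chordF_affine (c : ℂ) (ρ α β : ℝ) (z z' : ℂ) (a b : ℝ) (hab : a + b = 1) :
    chordF c ρ α β (a • z + b • z') = a * chordF c ρ α β z + b * chordF c ρ α β z' := by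
  unfold chordF
  set e := Complex.exp (-(((α + β) / 2 : ℝ) : ℂ) * Complex.I) with he
  have hb : b = 1 - a := by linarith
  subst hb
  have h1 : (a • z + (1 - a) • z' - c) * e = a • ((z - c) * e) + (1 - a) • ((z' - c) * e) := by
    simp only [Complex.real_smul]
    push_cast
    ring
  rw [h1, Complex.add_re, Complex.real_smul, Complex.real_smul, Complex.re_ofReal_mul,
    Complex.re_ofReal_mul]
  ring

theorem chordF_circ (c : ℂ) (ρ α β s : ℝ) :
    chordF c ρ α β (circ c ρ s) = ρ * (Real.cos ((β - α) / 2) - Real.cos (s - (α + β) / 2)) := by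
  unfold chordF circ
  have h1 : (c + ρ * Complex.exp (s * Complex.I) - c) *
      Complex.exp (-(((α + β) / 2 : ℝ) : ℂ) * Complex.I) =
      (ρ : ℂ) * Complex.exp (((s - (α + β) / 2 : ℝ) : ℂ) * Complex.I) := by
    rw [add_sub_cancel_left, mul_assoc, ← Complex.exp_add]
    congr 2
    push_cast
    ring
  rw [h1, Complex.re_ofReal_mul, Complex.exp_ofReal_mul_I_re]
  ring

theorem chordF_left (c : ℂ) (ρ α β : ℝ) : chordF c ρ α β (circ c ρ α) = 0 := by
  rw [chordF_circ]
  have h : α - (α + β) / 2 = -((β - α) / 2) := by ring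
  rw [h, Real.cos_neg]; ring

theorem chordF_right (c : ℂ) (ρ α β : ℝ) : chordF c ρ α β (circ c ρ β) = 0 := by
  rw [chordF_circ]
  have h : β - (α + β) / 2 = (β - α) / 2 := by ring
  rw [h]; ring

theorem chordF_neg (c : ℂ) (ρ α β s : ℝ) (hρ : 0 < ρ) (h1 : α < s) (h2 : s < β)
    (h3 : β < α + 2 * Real.pi) : chordF c ρ α β (circ c ρ s) < 0 := by
  rw [chordF_circ]
  have h4 : Real.cos ((β - α) / 2) < Real.cos |s - (α + β) / 2| := by
    apply Real.cos_lt_cos_of_nonneg_of_le_pi (abs_nonneg _) (by linarith)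
    rw [abs_lt]
    constructor <;> linarith
  rw [Real.cos_abs] at h4
  exact mul_neg_of_pos_of_neg hρ (by linarith)

theorem chordF_pos (c : ℂ) (ρ α β s : ℝ) (hρ : 0 < ρ) (h0 : α < β) (h1 : β < s)
    (h2 : s < α + 2 * Real.pi) : 0 < chordF c ρ α β (circ c ρ s) := by
  rw [chordF_circ]
  have h4 : Real.cos (s - (α + β) / 2) < Real.cos ((β - α) / 2) := by
    rcases le_or_gt (s - (α + β) / 2) Real.pi with h | h
    · apply Real.cos_lt_cos_of_nonneg_of_le_pi (by linarith) h
      linarith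
    · have h5 : Real.cos (s - (α + β) / 2) = Real.cos (2 * Real.pi - (s - (α + β) / 2)) := by
        rw [Real.cos_two_pi_sub]
      rw [h5]
      apply Real.cos_lt_cos_of_nonneg_of_le_pi (by linarith) (by linarith)
      linarith
  exact mul_pos hρ (by linarith)

theorem circ_period (c : ℂ) (ρ s : ℝ) : circ c ρ (s + 2 * Real.pi) = circ c ρ s := by
  unfold circ
  congr 2
  have h : ((s + 2 * Real.pi : ℝ) : ℂ) * Complex.I = s * Complex.I + 2 * Real.pi * Complex.I := by
    push_cast; ring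
  rw [h, Complex.exp_add, Complex.exp_two_pi_mul_I, mul_one]

end Pool.Agent.H95.NP
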