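import Pool.Agent.H95.NP.GeoB

/-!
# Row NP/GeoC: cyclic parametrisation of a finite subset of a circle

`θ z := Complex.arg (z - c) ∈ (-π, π]`, injective on the circle (`z - c = ρ exp(i arg)`:
`Complex.norm_mul_exp_arg_mul_I`).  The Finset `S.image θ` has `N` elements; enumerate it increasingly by
`e : Fin N ↪o ℝ` (`Finset.orderEmbOfFin`).  `t k := e (k mod N) + 2 π (k / N)` (`Int.emod`, `Int.ediv`).
StrictMono: `strictMono_int_of_lt_succ` (`t k < t (k+1)`): either the quotient is unchanged and the residue grows, or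
`k+1 ≡ 0`, where the value goes from `e (N-1) + 2π q ≤ π + 2 π q` to `e 0 + 2π(q+1) > -π + 2π(q+1)`.
-/

namespace Pool.Agent.H95.NP

theorem GeoC_circ_int (c : ℂ) (ρ s : ℝ) (q : ℤ) :
    circ c ρ (s + 2 * Real.pi * q) = circ c ρ s := by
  unfold circ
  have h1 : ((s + 2 * Real.pi * q : ℝ) : ℂ) * Complex.I =
      s * Complex.I + q * (2 * Real.pi * Complex.I) := by
    push_cast
    ring
  rw [h1, Complex.exp_add, Complex.exp_int_mul_two_pi_mul_I, mul_one]

theorem GeoC_arg {c z : ℂ} {ρ : ℝ} (h : ‖z - c‖ = ρ) : circ c ρ (Complex.arg (z - c)) = z := by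
  unfold circ
  rw [← h, Complex.norm_mul_exp_arg_mul_I]
  ring

theorem exists_param (N : ℕ) (hN : 0 < N) (c : ℂ) (ρ : ℝ) (S : Finset ℂ)
    (hS : S.card = N) (hcirc : ∀ z ∈ S, ‖z - c‖ = ρ) :
    ∃ t : ℤ → ℝ, StrictMono t ∧ (∀ k, t (k + N) = t k + 2 * Real.pi) ∧
      (∀ k, circ c ρ (t k) ∈ S) ∧
      (Finset.range N).image (fun k : ℕ => circ c ρ (t (k : ℤ))) = S := by
  set θ : ℂ → ℝ := fun z => Complex.arg (z - c) with hθ
  have hθz : ∀ z ∈ S, circ c ρ (θ z) = z := fun z hz => GeoC_arg (hcirc z hz)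
  have hinj : Set.InjOn θ S := by
    intro z hz w hw h
    rw [← hθz z hz, ← hθz w hw, h]
  have hcard : (S.image θ).card = N := by rw [Finset.card_image_of_injOn hinj, hS]
  set e := (S.image θ).orderEmbOfFin hcard with he
  have hemem : ∀ i : Fin N, ∃ z ∈ S, θ z = e i := by
    intro i
    have := Finset.orderEmbOfFin_mem (S.image θ) hcard i
    exact Finset.mem_image.mp this
  set e' : ℕ → ℝ := fun i => if h : i < N then e ⟨i, h⟩ else 0 with he'
  have he'1 : ∀ i (h : i < N), e' i = e ⟨i, h⟩ := fun i h => dif_pos h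
  have hmono : ∀ i j, i < j → j < N → e' i < e' j := by
    intro i j hij hj
    rw [he'1 i (hij.trans hj), he'1 j hj]
    exact e.strictMono hij
  have hrange : ∀ i, i < N → -Real.pi < e' i ∧ e' i ≤ Real.pi := by
    intro i hi
    rw [he'1 i hi]
    obtain ⟨z, _, hz⟩ := hemem ⟨i, hi⟩
    rw [← hz]
    exact ⟨Complex.neg_pi_lt_arg _, Complex.arg_le_pi _⟩
  have hcS : ∀ i, i < N → circ c ρ (e' i) ∈ S := by
    intro i hi
    rw [he'1 i hi]
    obtain ⟨z, hzS, hz⟩ := hemem ⟨i, hi⟩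
    rw [← hz, hθz z hzS]
    exact hzS
  have hN0 : (0 : ℤ) < N := by exact_mod_cast hN
  set t : ℤ → ℝ := fun k => e' (k % N).toNat + 2 * Real.pi * ((k / N : ℤ) : ℝ) with ht
  have hdiv : ∀ (k q r : ℤ), 0 ≤ r → r < N → r + N * q = k →
      t k = e' r.toNat + 2 * Real.pi * (q : ℝ) := by
    intro k q r h1 h2 h3
    obtain ⟨h4, h5⟩ := (Int.ediv_emod_unique (a := k) (q := q) (r := r) hN0).mpr ⟨h3, h1, h2⟩
    simp only [ht]
    rw [h4, h5]
  have hk : ∀ k : ℤ, k % N + N * (k / N) = k := fun k => Int.emod_add_mul_ediv k N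
  have hr0 : ∀ k : ℤ, 0 ≤ k % N := fun k => Int.emod_nonneg k hN0.ne'
  have hr1 : ∀ k : ℤ, k % N < N := fun k => Int.emod_lt_of_pos k hN0
  have hrN : ∀ k : ℤ, (k % N).toNat < N := fun k => by
    have := hr0 k
    have := hr1 k
    omega
  refine ⟨t, ?_, ?_, ?_, ?_⟩
  · refine strictMono_int_of_lt_succ fun k => ?_
    have h0 := hr0 k
    have h1 := hr1 k
    have h2 := hk k
    have e0 : t k = e' (k % N).toNat + 2 * Real.pi * ((k / N : ℤ) : ℝ) := rfl
    by_cases hlt : k % N + 1 < N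
    · rw [hdiv (k + 1) (k / N) (k % N + 1) (by linarith) hlt (by linarith), e0]
      have h3 : e' (k % N).toNat < e' (k % N + 1).toNat := by
        refine hmono _ _ ?_ ?_
        · omega
        · omega
      linarith
    · have h4 : k % N = N - 1 := by linarith [not_lt.mp hlt, Int.le_sub_one_of_lt h1]
      rw [hdiv (k + 1) (k / N + 1) 0 le_rfl hN0 (by rw [mul_add]; linarith), e0]
      have h5 := (hrange _ (hrN k)).2
      have h6 := (hrange 0 hN).1
      rw [Int.toNat_zero]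
      push_cast
      linarith
  · intro k
    have e0 : t k = e' (k % N).toNat + 2 * Real.pi * ((k / N : ℤ) : ℝ) := rfl
    rw [hdiv (k + N) (k / N + 1) (k % N) (hr0 k) (hr1 k) (by rw [mul_add]; linarith [hk k]), e0]
    push_cast
    ring
  · intro k
    have e0 : t k = e' (k % N).toNat + 2 * Real.pi * ((k / N : ℤ) : ℝ) := rfl
    rw [e0, GeoC_circ_int]
    exact hcS _ (hrN k)
  · have htk : ∀ k : ℕ, k < N → t (k : ℤ) = e' k := by
      intro k hkN
      rw [hdiv k 0 k (by positivity) (by exact_mod_cast hkN) (by ring)]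
      simp
    ext z
    rw [Finset.mem_image]
    constructor
    · rintro ⟨k, hk1, rfl⟩
      rw [htk k (Finset.mem_range.mp hk1)]
      exact hcS k (Finset.mem_range.mp hk1)
    · intro hz
      have h1 : θ z ∈ Set.range e := by
        rw [he, Finset.range_orderEmbOfFin]
        exact Finset.mem_coe.mpr (Finset.mem_image_of_mem θ hz)
      obtain ⟨i, hi⟩ := h1
      refine ⟨i, Finset.mem_range.mpr i.2, ?_⟩
      rw [htk i i.2, he'1 i i.2]
      rw [show (⟨(i : ℕ), i.2⟩ : Fin N) = i from rfl, hi, hθz z hz]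

end Pool.Agent.H95.NP
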