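import Pool.Agent.H95.NP.GeoA
import Pool.Agent.H95.NP.GeoC

/-!
# Row NP/GeoD: from a nested alternating matching to a noncrossing alternating path

`x t, y t` from `Nested T w m`; `v (2t) :=` the endpoint of `{x t, y t}` with `w = true`, `v (2t+1) :=` the other one;
`p k := circ c ρ (τ (v k))`.  `F u := chordF c ρ (τ (x u)) (τ (y u))`.  Signs at `p k`:
* `k < 2u`: the level `t = k/2 < u`, `x u < v k < y u`, so `chordF_neg`;
* `k = 2u, 2u+1`: `chordF_left/right`;
* `k ≥ 2u+2`: the level `t > u`: if `v k = y t`: `y u < y t < x t + T < x u + T`; if `v k = x t` replace it by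
  `x t + T` (same point, `circ_period`), `y u < y t < x t + T < x u + T`.  `chordF_pos`.
-/

namespace Pool.Agent.H95.NP

/-- the `k`-th point of the path -/
def GeoD_v (w : ℤ → Bool) (x y : ℕ → ℤ) (k : ℕ) : ℤ :=
  if k % 2 = 0 then (if w (x (k / 2)) = true then x (k / 2) else y (k / 2))
  else (if w (x (k / 2)) = true then y (k / 2) else x (k / 2))

theorem GeoD_v_mem (w : ℤ → Bool) (x y : ℕ → ℤ) (k : ℕ) :
    GeoD_v w x y k = x (k / 2) ∨ GeoD_v w x y k = y (k / 2) := by
  unfold GeoD_v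
  split_ifs <;> simp

theorem GeoD_pair (w : ℤ → Bool) (x y : ℕ → ℤ) (u : ℕ) :
    (GeoD_v w x y (2 * u) = x u ∧ GeoD_v w x y (2 * u + 1) = y u) ∨
      (GeoD_v w x y (2 * u) = y u ∧ GeoD_v w x y (2 * u + 1) = x u) := by
  have e1 : 2 * u % 2 = 0 := by omega
  have e2 : ¬ (2 * u + 1) % 2 = 0 := by omega
  have e3 : 2 * u / 2 = u := by omega
  have e4 : (2 * u + 1) / 2 = u := by omega
  unfold GeoD_v
  rw [if_pos e1, if_neg e2, e3, e4]
  split_ifs <;> simp

theorem GeoD_ne (c : ℂ) (ρ α β : ℝ) (hρ : 0 < ρ) (h1 : α < β) (h2 : β < α + 2 * Real.pi) :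
    circ c ρ α ≠ circ c ρ β := by
  intro h
  have h3 := chordF_left c ρ α ((α + β) / 2)
  have h4 := chordF_pos c ρ α ((α + β) / 2) β hρ (by linarith) (by linarith) h2
  rw [← h, h3] at h4
  exact lt_irrefl _ h4

theorem path_of_nested (T : ℕ) (c : ℂ) (ρ : ℝ) (hρ : 0 < ρ) (τ : ℤ → ℝ) (hτ : StrictMono τ)
    (hper : ∀ k, τ (k + T) = τ k + 2 * Real.pi) (w : ℤ → Bool) (m : ℕ)
    (hnest : Nested (T : ℤ) w m) :
    ∃ v : ℕ → ℤ, (∀ k, k < 2 * m → (w (v k) = true ↔ k % 2 = 0)) ∧
      (∀ i j, i < 2 * m → j < 2 * m → circ c ρ (τ (v i)) = circ c ρ (τ (v j)) → i = j) ∧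
      (∀ i j, i < j → j + 1 < 2 * m → ∀ z,
        z ∈ segment ℝ (circ c ρ (τ (v i))) (circ c ρ (τ (v (i + 1)))) →
        z ∈ segment ℝ (circ c ρ (τ (v j))) (circ c ρ (τ (v (j + 1)))) →
        j = i + 1 ∧ z = circ c ρ (τ (v j))) := by
  obtain ⟨x, y, hxy, hw⟩ := hnest
  have hyT : ∀ u, u < m → τ (y u) < τ (x u) + 2 * Real.pi := by
    intro u hu
    rw [← hper]
    exact hτ (hw u hu).2.1
  have hxy' : ∀ u, u < m → τ (x u) < τ (y u) := fun u hu => hτ (hw u hu).1
  have hne : ∀ u, u < m → circ c ρ (τ (GeoD_v w x y (2 * u))) ≠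
      circ c ρ (τ (GeoD_v w x y (2 * u + 1))) := by
    intro u hu
    have h1 := GeoD_ne c ρ _ _ hρ (hxy' u hu) (hyT u hu)
    rcases GeoD_pair w x y u with ⟨e1, e2⟩ | ⟨e1, e2⟩
    · rw [e1, e2]; exact h1
    · rw [e1, e2]; exact h1.symm
  have hz : ∀ u k, k / 2 = u → chordF c ρ (τ (x u)) (τ (y u)) (circ c ρ (τ (GeoD_v w x y k))) = 0 := by
    intro u k hk
    rcases GeoD_v_mem w x y k with e | e
    · rw [e, hk]; exact chordF_left _ _ _ _
    · rw [e, hk]; exact chordF_right _ _ _ _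
  have hneg : ∀ u, u < m → ∀ k, k < 2 * u →
      chordF c ρ (τ (x u)) (τ (y u)) (circ c ρ (τ (GeoD_v w x y k))) < 0 := by
    intro u hu k hk
    obtain ⟨h1, h2⟩ := hxy (k / 2) u (by omega) hu
    have h3 := (hw (k / 2) (by omega)).1
    rcases GeoD_v_mem w x y k with e | e
    · rw [e]
      exact chordF_neg _ _ _ _ _ hρ (hτ h1) (hτ (by omega)) (hyT u hu)
    · rw [e]
      exact chordF_neg _ _ _ _ _ hρ (hτ (by omega)) (hτ h2) (hyT u hu)
  have hpos : ∀ u, u < m → ∀ k, 2 * u + 2 ≤ k → k < 2 * m →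
      0 < chordF c ρ (τ (x u)) (τ (y u)) (circ c ρ (τ (GeoD_v w x y k))) := by
    intro u hu k hk hkm
    obtain ⟨h1, h2⟩ := hxy u (k / 2) (by omega) (by omega)
    have h3 := hw (k / 2) (by omega)
    rcases GeoD_v_mem w x y k with e | e
    · rw [e, ← circ_period, ← hper]
      refine chordF_pos _ _ _ _ _ hρ (hxy' u hu) (hτ (by omega)) ?_
      rw [← hper]
      exact hτ (by omega)
    · rw [e]
      refine chordF_pos _ _ _ _ _ hρ (hxy' u hu) (hτ (by omega)) ?_
      rw [← hper]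
      exact hτ (by omega)
  refine ⟨GeoD_v w x y, ?_, ?_, ?_⟩
  · intro k hk
    have h3 := (hw (k / 2) (by omega)).2.2
    unfold GeoD_v
    by_cases h0 : k % 2 = 0
    · rw [if_pos h0]
      split_ifs with h4
      · simp [h4, h0]
      · simp only [h0, iff_true]
        by_contra h5
        apply h3
        rw [Bool.not_eq_true] at h4 h5
        rw [h4, h5]
    · rw [if_neg h0]
      split_ifs with h4
      · simp only [h0, iff_false]
        intro h5
        apply h3
        rw [h4, h5]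
      · simp [h4, h0]
  · intro i j hi hj h
    by_contra hij
    -- two points of the same level, or different levels
    have key : ∀ i j, i < j → j < 2 * m →
        circ c ρ (τ (GeoD_v w x y i)) = circ c ρ (τ (GeoD_v w x y j)) → False := by
      intro i j hij hj h
      by_cases hu : j / 2 = i / 2
      · have hi' : i = 2 * (i / 2) := by omega
        have hj' : j = 2 * (i / 2) + 1 := by omega
        have := hne (i / 2) (by omega)
        rw [← hj', ← hi'] at this
        exact this h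
      · have h1 := hz (i / 2) i rfl
        have h2 := hpos (i / 2) (by omega) j (by omega) hj
        rw [← h, h1] at h2
        exact lt_irrefl _ h2
    rcases Nat.lt_or_gt_of_ne hij with h1 | h1
    · exact key i j h1 hj h
    · exact key j i h1 hi h.symm
  · exact noncross_of_functionals m (fun k => circ c ρ (τ (GeoD_v w x y k)))
      (fun u => chordF c ρ (τ (x u)) (τ (y u)))
      (fun u z z' a b _ _ hab => chordF_affine _ _ _ _ _ _ _ _ hab) hne hneg
      (fun u _ => hz u _ (by omega)) (fun u _ => hz u _ (by omega)) hpos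

end Pool.Agent.H95.NP
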