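import Pool.Agent.H95.NP.Row

/-!
# Row NP/Lay: layer cake, total identity

## `layer`
Sum `row_ineq` over `q = 0, …, Q-1`: `∑_{q<Q} 4 m q = 2 m Q (Q-1)`,
`∑_{q<Q} #{j | q < aRow j} ≤ ∑ j, aRow j` (for each `j`: `#{q < Q | q < a} ≤ a`, `a = aRow j ≥ 0`).

## `total`
`B2 σ θ W + B2 θ σ Uᵗ = ∑_{i,j} mis i j (W i j + W (i-1) j + U i j + U i (j-1))`.
Over all cells `∑ (W i j + W (i-1) j + U i j + U i (j-1)) = 2 m X + 2 A T`; over the matched cells every
term is `2` and there are `X T / 2` of them (balθ, balσ).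

## `two_aRow_le`
`∑_{i,j} mis (U i j + U i (j-1)) ≥ 2 ∑ mis U i j` by `misU`.
-/

namespace Pool.Agent.H95.NP

open Finset

theorem aRow_nonneg {X T : ℕ} [NeZero X] [NeZero T] {σ : ZMod X → Bool} {θ : ZMod T → Bool}
    {m A : ℤ} {U W : ZMod X → ZMod T → ℤ} (h : TF X T σ θ m A U W) (j : ZMod T) :
    0 ≤ aRow σ θ U j := by
  unfold aRow
  refine Finset.sum_nonneg fun i _ => mul_nonneg ?_ ?_
  · unfold mis; split_ifs <;> omega
  · rcases h.U01 i j with h | h <;> omega

theorem Lay_count (a : ℤ) (ha : 0 ≤ a) (Q : ℕ) :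
    ∑ q ∈ range Q, (if (q : ℤ) < a then (1 : ℤ) else 0) ≤ a := by
  have : ∀ Q : ℕ, ∑ q ∈ range Q, (if (q : ℤ) < a then (1 : ℤ) else 0) ≤ min a Q := by
    intro Q
    induction Q with
    | zero => simp [ha]
    | succ Q ih =>
      rw [Finset.sum_range_succ]
      push_cast
      split_ifs with h
      · rw [le_min_iff] at ih ⊢
        constructor
        · linarith [ih.2]
        · linarith [ih.2]
      · rw [le_min_iff] at ih ⊢
        constructor
        · linarith [ih.1]
        · linarith [ih.2]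
  exact (this Q).trans (min_le_left _ _)

theorem layer {X T : ℕ} [NeZero X] [NeZero T] {σ : ZMod X → Bool} {θ : ZMod T → Bool}
    {m A : ℤ} {U W : ZMod X → ZMod T → ℤ} (h : TF X T σ θ m A U W) (hm : 2 * m ≤ T) (Q : ℕ) :
    (Q : ℤ) * (2 * m * A - B2 σ θ W) ≤ 2 * m * (Q * (Q - 1)) + 2 * A * ∑ j, aRow σ θ U j := by
  have hA0 : 0 ≤ A := by
    rw [← h.sumU 0]
    refine Finset.sum_nonneg fun i _ => ?_
    rcases h.U01 i 0 with h | h <;> omega
  have h1 : ∀ q ∈ range Q, 2 * m * A ≤ 4 * m * (q : ℤ) + B2 σ θ W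
      + 2 * A * (univ.filter fun j => (q : ℤ) < aRow σ θ U j).card :=
    fun q _ => row_ineq h hm q (by positivity)
  have h2 := Finset.sum_le_sum h1
  rw [Finset.sum_const, Finset.sum_add_distrib, Finset.sum_add_distrib, ← Finset.mul_sum,
    ← Finset.mul_sum, Finset.sum_const, card_range] at h2
  have h3 : 2 * ∑ q ∈ range Q, (q : ℤ) = (Q : ℤ) * (Q - 1) := by
    clear h2 h1
    induction Q with
    | zero => simp
    | succ Q ih => rw [Finset.sum_range_succ, mul_add, ih]; push_cast; ring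
  have h4 : ∑ q ∈ range Q, ((univ.filter fun j => (q : ℤ) < aRow σ θ U j).card : ℤ)
      ≤ ∑ j, aRow σ θ U j := by
    have e1 : ∀ q ∈ range Q, ((univ.filter fun j => (q : ℤ) < aRow σ θ U j).card : ℤ) =
        ∑ j, (if (q : ℤ) < aRow σ θ U j then (1 : ℤ) else 0) := by
      intro q _
      rw [Finset.card_filter]; push_cast; rfl
    rw [Finset.sum_congr rfl e1, Finset.sum_comm]
    exact Finset.sum_le_sum fun j _ => Lay_count _ (aRow_nonneg h j) Q
  have h5 := mul_le_mul_of_nonneg_left h4 (by linarith : (0 : ℤ) ≤ 2 * A)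
  simp only [nsmul_eq_mul] at h2
  nlinarith [h2, h3, h5]

theorem Lay_mis_symm {X T : ℕ} (σ : ZMod X → Bool) (θ : ZMod T → Bool) (i : ZMod X) (j : ZMod T) :
    mis θ σ j i = mis σ θ i j := by
  unfold mis; simp only [eq_comm]

theorem total {X T : ℕ} [NeZero X] [NeZero T] {σ : ZMod X → Bool} {θ : ZMod T → Bool}
    {m A : ℤ} {U W : ZMod X → ZMod T → ℤ} (h : TF X T σ θ m A U W) :
    B2 σ θ W + B2 θ σ (fun j i => U i j) = 2 * m * X + 2 * A * T - X * T := by
  have e0 : B2 θ σ (fun j i => U i j) = ∑ i, ∑ j, mis σ θ i j * (U i j + U i (j - 1)) := by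
    unfold B2
    rw [Finset.sum_comm]
    exact Finset.sum_congr rfl fun i _ => Finset.sum_congr rfl fun j _ => by
      rw [Lay_mis_symm]
  have e1 : B2 σ θ W + B2 θ σ (fun j i => U i j) =
      ∑ i, ∑ j, ((W i j + W (i - 1) j + U i j + U i (j - 1)) - 2 * (1 - mis σ θ i j)) := by
    rw [e0]; unfold B2
    rw [← Finset.sum_add_distrib]
    refine Finset.sum_congr rfl fun i _ => ?_
    rw [← Finset.sum_add_distrib]
    refine Finset.sum_congr rfl fun j _ => ?_
    by_cases hs : σ i = θ j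
    · simp only [mis, hs, if_true]; ring
    · have h1 := h.mat i j hs
      have h2 := h.cons i j
      simp only [mis, hs, if_false]
      linarith
  rw [e1]
  have e2 : ∑ i, ∑ j, W i j = m * X := by
    rw [Finset.sum_congr rfl fun i _ => h.sumW i]
    simp [mul_comm]
  have e3 : ∑ i : ZMod X, ∑ j, W (i - 1) j = m * X := by
    rw [Finset.sum_congr rfl fun i _ => h.sumW (i - 1)]
    simp [mul_comm]
  have e4 : ∑ i, ∑ j, U i j = A * T := by
    rw [Finset.sum_comm, Finset.sum_congr rfl fun j _ => h.sumU j]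
    simp [mul_comm]
  have e5 : ∑ i, ∑ j : ZMod T, U i (j - 1) = A * T := by
    rw [Finset.sum_comm, Finset.sum_congr rfl fun j _ => h.sumU (j - 1)]
    simp [mul_comm]
  -- number of matched cells
  have e6 : ∀ i, 2 * ∑ j, (1 - mis σ θ i j) = (T : ℤ) := by
    intro i
    have c1 : ∀ b : Bool, 2 * ∑ j, (if θ j = b then (1 : ℤ) else 0) = T := by
      have hb := h.balθ
      have h3 := Finset.card_filter_add_card_filter_not (s := (univ : Finset (ZMod T)))
          (fun j => θ j = true)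
      simp only [Bool.not_eq_true, Finset.card_univ, ZMod.card] at h3
      intro b
      have h4 : ∑ j, (if θ j = b then (1 : ℤ) else 0) = ((univ.filter fun j => θ j = b).card : ℤ) := by
        rw [Finset.card_filter]; push_cast; rfl
      rw [h4]
      rcases b with _ | _
      · have : 2 * (univ.filter fun j => θ j = false).card = T := by omega
        exact_mod_cast this
      · exact_mod_cast hb
    rw [← c1 (!(σ i))]
    congr 1
    refine Finset.sum_congr rfl fun j _ => ?_
    unfold mis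
    rcases hs : σ i <;> rcases ht : θ j <;> simp
  have e7 : ∑ i : ZMod X, ∑ j, 2 * (1 - mis σ θ i j) = (X : ℤ) * T := by
    have : ∀ i : ZMod X, ∑ j, 2 * (1 - mis σ θ i j) = (T : ℤ) := by
      intro i; rw [← Finset.mul_sum]; exact e6 i
    rw [Finset.sum_congr rfl fun i _ => this i]
    simp
  simp only [Finset.sum_sub_distrib, Finset.sum_add_distrib] at e7 ⊢
  simp only [Finset.sum_sub_distrib, ← Finset.mul_sum] at e7 ⊢
  linarith [e2, e3, e4, e5, e7]

theorem two_aRow_le {X T : ℕ} [NeZero X] [NeZero T] {σ : ZMod X → Bool} {θ : ZMod T → Bool}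
    {m A : ℤ} {U W : ZMod X → ZMod T → ℤ} (h : TF X T σ θ m A U W) :
    2 * ∑ j, aRow σ θ U j ≤ B2 θ σ (fun j i => U i j) := by
  unfold B2 aRow
  rw [Finset.mul_sum]
  refine Finset.sum_le_sum fun j _ => ?_
  rw [Finset.mul_sum]
  refine Finset.sum_le_sum fun i _ => ?_
  rw [Lay_mis_symm]
  unfold mis
  split_ifs with hs
  · have := h.misU i j hs.symm
    linarith
  · simp

end Pool.Agent.H95.NP
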