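import Pool.Agent.H95.NP.Bnd

/-!
# Row NP/Pev: the field becomes doubly periodic

`Lf_eventually`: profiles at `i = k T` (`k : ℕ`): the vector `(Lf (kT) j - Lf (kT) (j-1))_{j ∈ Fin T}` takes
finitely many values (`Lf_diff`), so by `Finite.exists_ne_map_eq_of_infinite` two of them (`k1 < k2`) agree; by
`Lf_period` they agree for all `j : ℤ`, so `Lf (k2 T) j = Lf (k1 T) j + A` for all `j`.  The step from `i` to
`i+1` depends only on `w (-(i+1))` (period `T`) and commutes with adding a constant, so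
`Lf (i + X) j = Lf i j + A` for all `i ≥ k1 T`, `X = (k2 - k1) T`.  `0 ≤ A` by `Lf_up`.
`T A ≤ m X`: `Lf_bound` at `i = k1 T + k X`, `j = 0`:
`T (Lf (k1 T) 0 + k A) ≤ m (k1 T + k X) + 2 m T` for all `k`.

-/

namespace Pool.Agent.H95.NP

open Finset

theorem Pev_step_add (M : ℤ → Prop) (L L' : ℤ → ℤ) (A : ℤ) (hL : ∀ j, L' j = L j + A) (j : ℤ) :
    step M L' j = step M L j + A := by
  unfold step
  by_cases hP : ∃ r : ℤ, r ≤ j ∧ M r ∧ L (r - 1) = L j
  · have hP' : ∃ r : ℤ, r ≤ j ∧ M r ∧ L' (r - 1) = L' j := by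
      obtain ⟨r, h1, h2, h3⟩ := hP
      exact ⟨r, h1, h2, by rw [hL, hL, h3]⟩
    rw [if_pos hP, if_pos hP', hL]; ring
  · have hP' : ¬ ∃ r : ℤ, r ≤ j ∧ M r ∧ L' (r - 1) = L' j := by
      rintro ⟨r, h1, h2, h3⟩
      exact hP ⟨r, h1, h2, by rw [hL, hL] at h3; linarith⟩
    rw [if_neg hP, if_neg hP', hL]

theorem Lf_eventually (T : ℕ) (hT : 0 < T) (m : ℤ) (w : ℤ → Bool) (hm : 0 ≤ m) (hmT : m ≤ T)
    (hw : ∀ x, w (x + T) = w x) (hmax : ∀ r : ℕ, Nested T w r → (r : ℤ) ≤ m) :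
    ∃ (i0 K : ℕ) (A : ℤ), 0 < K ∧ T * A ≤ m * (K * T : ℕ) ∧
      ∀ i, i0 ≤ i → ∀ j, Lf T m w (i + K * T) j = Lf T m w i j + A := by
  classical
  have hT' : (0 : ℤ) < T := by exact_mod_cast hT
  let f : ℕ → (Fin T → Bool) := fun k t =>
    decide (Lf T m w (k * T) (t : ℕ) - Lf T m w (k * T) ((t : ℕ) - 1) = 1)
  obtain ⟨k1, k2, hne, heq⟩ : ∃ k1 k2 : ℕ, k1 < k2 ∧ f k1 = f k2 := by
    obtain ⟨a, b, hab, h⟩ := Finite.exists_ne_map_eq_of_infinite f
    rcases lt_or_gt_of_ne hab with h1 | h1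
    · exact ⟨a, b, h1, h⟩
    · exact ⟨b, a, h1, h.symm⟩
  have hwp : Function.Periodic w (T : ℤ) := hw
  have hDper : ∀ i, Function.Periodic (fun j => Lf T m w i j - Lf T m w i (j - 1)) (T : ℤ) := by
    intro i j
    show Lf T m w i (j + T) - Lf T m w i (j + T - 1) = Lf T m w i j - Lf T m w i (j - 1)
    have h1 : j + (T : ℤ) - 1 = (j - 1) + T := by ring
    rw [h1, Lf_period T m w hT' hw, Lf_period T m w hT' hw]; ring
  have hD : ∀ j, Lf T m w (k1 * T) j - Lf T m w (k1 * T) (j - 1)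
      = Lf T m w (k2 * T) j - Lf T m w (k2 * T) (j - 1) := by
    intro j
    have hj0 : 0 ≤ j % (T : ℤ) := Int.emod_nonneg _ hT'.ne'
    have hj1 : j % (T : ℤ) < T := Int.emod_lt_of_pos _ hT'
    obtain ⟨t, ht⟩ := Int.eq_ofNat_of_zero_le hj0
    have htT : t < T := by
      have : (t : ℤ) < T := by rw [← ht]; exact hj1
      exact_mod_cast this
    have hdec : j = (t : ℤ) + (j / T) * T := by
      have := Int.emod_add_mul_ediv j T
      rw [ht] at this
      linarith
    have e1 := ((hDper (k1 * T)).int_mul (j / T)) (t : ℤ)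
    have e2 := ((hDper (k2 * T)).int_mul (j / T)) (t : ℤ)
    simp only [Int.cast_id] at e1 e2
    rw [← hdec] at e1 e2
    rw [e1, e2]
    have h5 := congrFun heq ⟨t, htT⟩
    simp only [f, decide_eq_decide] at h5
    rcases Lf_diff T m w hT' hm hmT (k1 * T) t with h6 | h6 <;>
      rcases Lf_diff T m w hT' hm hmT (k2 * T) t with h7 | h7
    · rw [h6, h7]
    · have := h5.mpr h7; omega
    · have := h5.mp h6; omega
    · rw [h6, h7]
  have hE : Function.Periodic (fun j => Lf T m w (k2 * T) j - Lf T m w (k1 * T) j) (1 : ℤ) := by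
    intro j
    have h1 := hD (j + 1)
    rw [add_sub_cancel_right] at h1
    show Lf T m w (k2 * T) (j + 1) - Lf T m w (k1 * T) (j + 1)
      = Lf T m w (k2 * T) j - Lf T m w (k1 * T) j
    linarith
  set A := Lf T m w (k2 * T) 0 - Lf T m w (k1 * T) 0 with hA
  have hEA : ∀ j, Lf T m w (k2 * T) j = Lf T m w (k1 * T) j + A := by
    intro j
    have h1 := (hE.int_mul j) 0
    simp only [Int.cast_id, mul_one, zero_add] at h1
    linarith
  obtain ⟨K, hK⟩ := Nat.exists_eq_add_of_lt hne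
  have hKT : k2 * T = k1 * T + (K + 1) * T := by rw [hK]; ring
  have hmain : ∀ n : ℕ, ∀ j, Lf T m w (k1 * T + n + (K + 1) * T) j = Lf T m w (k1 * T + n) j + A := by
    intro n
    induction n with
    | zero =>
      intro j
      rw [add_zero, ← hKT]
      exact hEA j
    | succ n ih =>
      intro j
      have e1 : k1 * T + (n + 1) + (K + 1) * T = (k1 * T + n + (K + 1) * T) + 1 := by ring
      have e2 : k1 * T + (n + 1) = (k1 * T + n) + 1 := by ring
      rw [e1, e2]
      show step _ (Lf T m w (k1 * T + n + (K + 1) * T)) j = step _ (Lf T m w (k1 * T + n)) j + A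
      rw [Pev_step_add _ _ _ A ih j]
      have e3 : w (-(((k1 * T + n + (K + 1) * T : ℕ) : ℤ) + 1)) = w (-(((k1 * T + n : ℕ) : ℤ) + 1)) := by
        have e4 := (hwp.int_mul (K + 1)) (-(((k1 * T + n + (K + 1) * T : ℕ) : ℤ) + 1))
        rw [← e4]
        congr 1
        push_cast
        ring
      simp only [e3]
  refine ⟨k1 * T, K + 1, A, by omega, ?_, ?_⟩
  · -- growth
    by_contra hcon
    push Not at hcon
    have hiter : ∀ n : ℕ, Lf T m w (k1 * T + n * ((K + 1) * T)) 0 = Lf T m w (k1 * T) 0 + n * A := by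
      intro n
      induction n with
      | zero => simp
      | succ n ih =>
        have e1 : k1 * T + (n + 1) * ((K + 1) * T) = k1 * T + n * ((K + 1) * T) + (K + 1) * T := by
          ring
        rw [e1, hmain, ih]
        push_cast; ring
    set C : ℤ := m * (k1 * T) + 2 * m * T - T * Lf T m w (k1 * T) 0 with hC
    have h1 := Lf_bound T m w hT' hm hw hmax (k1 * T + (C.toNat + 1) * ((K + 1) * T)) 0
    rw [hiter] at h1
    have h2 : C ≤ C.toNat := Int.self_le_toNat C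
    push_cast at h1 hcon
    have h3 : 1 ≤ (T : ℤ) * A - m * ((K + 1) * T) := by linarith
    have h4 : ((C.toNat : ℤ) + 1) * 1 ≤ (C.toNat + 1) * ((T : ℤ) * A - m * ((K + 1) * T)) :=
      mul_le_mul_of_nonneg_left h3 (by positivity)
    nlinarith [h1, h2, h4]
  · intro i hi j
    obtain ⟨n, rfl⟩ := Nat.exists_eq_add_of_le hi
    exact hmain n j

end Pool.Agent.H95.NP
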