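import Pool.Agent.H95.NP.Pev

/-!
# Row NP/Pig: construction of the torus field

`exists_TF`: `U i j := Lf N j - Lf (N-1) j`, `W i j := Lf N j - Lf N (j-1)` where `N = X * (i0+1) + i.val` and
`j` stands for `(j.val : ℤ)`.  The shifts `i - 1`, `j - 1` in `ZMod` are handled by periodicity of these
differences.  `balσ`: `σ i = w (-(i.val))` and `X` is a multiple of `T`.
-/

namespace Pool.Agent.H95.NP

open Finset

private theorem Pig_sum {M : Type*} [AddCommMonoid M] {n : ℕ} [NeZero n] (f : ℕ → M) :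
    ∑ i : ZMod n, f i.val = ∑ k ∈ range n, f k := by
  obtain ⟨t, rfl⟩ : ∃ t, n = t + 1 := ⟨n - 1, by have := NeZero.pos n; omega⟩
  exact Fin.sum_univ_eq_sum_range (fun k => f k) (t + 1)

private theorem Pig_pred {n : ℕ} [NeZero n] (i : ZMod n) :
    (i - 1).val + 1 = i.val ∨ ((i - 1).val + 1 = n ∧ i.val = 0) := by
  have h1 : (i - 1).val < n := ZMod.val_lt _
  have h2 : i = (((i - 1).val + 1 : ℕ) : ZMod n) := by
    push_cast
    rw [ZMod.natCast_zmod_val]
    ring
  have h3 : i.val = ((i - 1).val + 1) % n := by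
    conv_lhs => rw [h2]
    rw [ZMod.val_natCast]
  rcases Nat.lt_or_ge ((i - 1).val + 1) n with h | h
  · left
    rw [h3, Nat.mod_eq_of_lt h]
  · right
    have h4 : (i - 1).val + 1 = n := by omega
    refine ⟨h4, ?_⟩
    rw [h3, h4, Nat.mod_self]

private theorem Pig_rev (T : ℕ) (F : ℤ → ℕ) (hF : ∀ x, F (x + T) = F x) :
    ∑ k ∈ range T, F (-(k : ℤ)) = ∑ k ∈ range T, F (k : ℤ) := by
  have h1 : ∑ k ∈ range T, F (-(k : ℤ)) = ∑ k ∈ range T, F (((T - 1 - k : ℕ) : ℤ) + 1) := by
    refine sum_congr rfl fun k hk => ?_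
    have hk' := mem_range.1 hk
    rw [← hF (-(k : ℤ))]
    congr 1
    have : ((T - 1 - k : ℕ) : ℤ) = (T : ℤ) - 1 - k := by omega
    rw [this]
    ring
  rw [h1, sum_range_reflect (fun k => F ((k : ℤ) + 1)) T]
  have h2 := sum_range_succ (fun k : ℕ => F (k : ℤ)) T
  have h3 := sum_range_succ' (fun k : ℕ => F (k : ℤ)) T
  have h4 : F (T : ℤ) = F 0 := by simpa using hF 0
  push_cast at h3
  simp only [h4] at h2
  omega

private theorem Pig_mul (T K : ℕ) (F : ℤ → ℕ) (hF : ∀ x, F (x + T) = F x) :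
    ∑ k ∈ range (K * T), F (-(k : ℤ)) = K * ∑ k ∈ range T, F (-(k : ℤ)) := by
  have hF2 : ∀ (K : ℕ) x, F (x - (K * T : ℕ)) = F x := by
    intro K
    induction K with
    | zero => intro x; simp
    | succ K ih =>
      intro x
      rw [← ih x, ← hF (x - ((K + 1) * T : ℕ))]
      congr 1
      push_cast
      ring
  induction K with
  | zero => simp
  | succ K ih =>
    rw [Nat.succ_mul, sum_range_add, ih, Nat.succ_mul]
    congr 1
    refine sum_congr rfl fun k _ => ?_
    rw [← hF2 K (-(k : ℤ))]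
    congr 1
    push_cast
    ring

theorem exists_TF (T : ℕ) [NeZero T] (m : ℤ) (w : ℤ → Bool) (hm : 0 ≤ m) (hmT : m ≤ T)
    (hw : ∀ x, w (x + T) = w x) (hbal : 2 * ((range T).filter fun x : ℕ => w (x : ℤ) = true).card = T)
    (hmax : ∀ r : ℕ, Nested T w r → (r : ℤ) ≤ m) :
    ∃ (X : ℕ) (_ : NeZero X) (σ : ZMod X → Bool) (θ : ZMod T → Bool) (A : ℤ)
      (U W : ZMod X → ZMod T → ℤ), TF X T σ θ m A U W ∧ T * A ≤ m * X := by
  have hT : 0 < T := NeZero.pos T
  have hT' : (0 : ℤ) < T := by exact_mod_cast hT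
  obtain ⟨i0, K, A, hK, hTA, hper⟩ := Lf_eventually T hT m w hm hmT hw hmax
  have hX : 0 < K * T := Nat.mul_pos hK hT
  have : NeZero (K * T) := ⟨hX.ne'⟩
  -- the base row
  obtain ⟨b, hb⟩ : ∃ b, K * T * (i0 + 1) = b + 1 :=
    ⟨K * T * (i0 + 1) - 1, (Nat.sub_add_cancel (Nat.mul_pos hX (Nat.succ_pos i0))).symm⟩
  have hbi : i0 ≤ b := by
    have : i0 + 1 ≤ K * T * (i0 + 1) := Nat.le_mul_of_pos_left _ hX
    omega
  set L := Lf T m w with hL
  have hLj : ∀ (n : ℕ) (j : ℤ), L n (j + T) = L n j + m := fun n j => Lf_period T m w hT' hw n j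
  have hD : ∀ (n : ℕ) (j : ℤ), L n j - L n (j - 1) = 0 ∨ L n j - L n (j - 1) = 1 :=
    fun n j => Lf_diff T m w hT' hm hmT n j
  have hUp : ∀ (n : ℕ) (j : ℤ), L (n + 1) j - L n j = 0 ∨ L (n + 1) j - L n j = 1 :=
    fun n j => Lf_up T m w n j
  -- shifts
  have hWi : ∀ (i : ZMod (K * T)) (j : ℤ),
      L (b + (i - 1).val + 1) j - L (b + (i - 1).val + 1) (j - 1) =
        L (b + i.val) j - L (b + i.val) (j - 1) := by
    intro i j
    rcases Pig_pred i with h | ⟨h, h0⟩
    · rw [add_assoc, h]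
    · rw [add_assoc, h, h0, add_zero, hper b hbi j, hper b hbi (j - 1)]
      ring
  have hUj : ∀ (n : ℕ) (j : ZMod T),
      L (n + 1) ((j - 1).val : ℤ) - L n ((j - 1).val : ℤ) =
        L (n + 1) ((j.val : ℤ) - 1) - L n ((j.val : ℤ) - 1) := by
    intro n j
    rcases Pig_pred j with h | ⟨h, h0⟩
    · have e : ((j - 1).val : ℤ) = (j.val : ℤ) - 1 := by omega
      rw [e]
    · have e : ((j - 1).val : ℤ) = ((j.val : ℤ) - 1) + T := by omega
      rw [e, hLj, hLj]
      ring
  have hbal' : 2 * ∑ x ∈ range T, (if w (x : ℤ) = true then 1 else 0) = T := by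
    rw [← card_filter]
    exact hbal
  refine ⟨K * T, inferInstance, fun i => w (-(((b + i.val : ℕ) : ℤ) + 1)),
    fun j => w (j.val : ℤ), A, fun i j => L (b + i.val + 1) (j.val : ℤ) - L (b + i.val) (j.val : ℤ),
    fun i j => L (b + i.val + 1) (j.val : ℤ) - L (b + i.val + 1) ((j.val : ℤ) - 1), ?_, ?_⟩
  · constructor
    · intro i j
      exact hUp _ _
    · intro i j
      exact hD _ _
    · intro i j
      simp only [hWi, hUj]
      ring
    · intro i j hij
      have h := Lf_match T m w hT' hm hmT (b + i.val) (j.val : ℤ) hij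
      rw [← hL] at h
      simp only [hWi]
      linarith
    · intro i j hij
      have h := Lf_mismatch T m w hT' hm hmT (b + i.val) (j.val : ℤ) hij
      rw [← hL] at h
      simp only [hUj]
      have h1 := hUp (b + i.val) ((j.val : ℤ) - 1)
      have h2 := hD (b + i.val) (j.val : ℤ)
      rcases h with h | h <;> omega
    · intro i j hij
      have h := Lf_mismatch T m w hT' hm hmT (b + i.val) (j.val : ℤ) hij
      rw [← hL] at h
      simp only [hWi]
      have h1 := hUp (b + i.val) ((j.val : ℤ) - 1)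
      have h2 := hD (b + i.val) (j.val : ℤ)
      rcases h with h | h <;> omega
    · intro i
      rw [Pig_sum (n := T) (fun k : ℕ => L (b + i.val + 1) (k : ℤ) - L (b + i.val + 1) ((k : ℤ) - 1))]
      have h := sum_range_sub (fun k : ℕ => L (b + i.val + 1) ((k : ℤ) - 1)) T
      have h3 := hLj (b + i.val + 1) (-1)
      push_cast at h
      have e : ∀ x : ℕ, L (b + i.val + 1) ((x : ℤ) + 1 - 1) = L (b + i.val + 1) (x : ℤ) := by
        intro x; rw [add_sub_cancel_right]
      simp only [e] at h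
      rw [h]
      have e2 : (-1 + (T : ℤ)) = T - 1 := by ring
      rw [e2] at h3
      linarith
    · intro j
      rw [Pig_sum (n := K * T) (fun k : ℕ => L (b + k + 1) (j.val : ℤ) - L (b + k) (j.val : ℤ))]
      have h := sum_range_sub (fun k : ℕ => L (b + k) (j.val : ℤ)) (K * T)
      simp only [add_zero, ← add_assoc] at h
      rw [h, hper b hbi]
      ring
    · rw [card_filter, Pig_sum (n := K * T)
        (fun k : ℕ => if w (-(((b + k : ℕ) : ℤ) + 1)) = true then 1 else 0)]
      obtain ⟨F, hFd⟩ : ∃ F : ℤ → ℕ, ∀ x, F x = if w x = true then 1 else 0 := ⟨_, fun _ => rfl⟩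
      have hF : ∀ x, F (x + T) = F x := by
        intro x
        rw [hFd, hFd, hw]
      have hwK : ∀ (n : ℕ) (x : ℤ), w (x - n * T) = w x := by
        intro n
        induction n with
        | zero => intro x; simp
        | succ n ih =>
          intro x
          rw [← ih x, ← hw (x - ((n + 1 : ℕ) : ℤ) * T)]
          congr 1
          push_cast
          ring
      have h1 : ∑ k ∈ range (K * T), (if w (-(((b + k : ℕ) : ℤ) + 1)) = true then 1 else 0) =
          ∑ k ∈ range (K * T), F (-(k : ℤ)) := by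
        refine sum_congr rfl fun k _ => ?_
        have e : -(((b + k : ℕ) : ℤ) + 1) = -(k : ℤ) - ((K * (i0 + 1) : ℕ) : ℤ) * T := by
          have hb' : ((K : ℤ) * T * (i0 + 1)) = b + 1 := by exact_mod_cast hb
          push_cast
          linarith
        rw [hFd, e, hwK]
      have h5 : 2 * ∑ k ∈ range T, F (k : ℤ) = T := by
        simp only [hFd]
        exact hbal'
      rw [h1, Pig_mul T K F hF, Pig_rev T F hF]
      calc 2 * (K * ∑ k ∈ range T, F (k : ℤ)) = K * (2 * ∑ k ∈ range T, F (k : ℤ)) := by ring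
        _ = K * T := by rw [h5]
    · rw [card_filter, Pig_sum (n := T) (fun k : ℕ => if w (k : ℤ) = true then 1 else 0)]
      exact hbal'
  · exact hTA

end Pool.Agent.H95.NP
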