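import Pool.Agent.H95.NP.Defs

/-!
# Row NP/Row: the row inequality on the torus field

## `row_exists_g`  (g(j) = colour of the next good row ≥ j)
For `j : ZMod T` let `d j := Nat.find (∃ k : ℕ, G (j + k))` (exists: `k = (j* - j).val`),
`g j := θ (j + d j)`.  If `G j` then `d j = 0`; if `¬ G j` then `d j = d (j+1) + 1`.

## `row_core`
Good rows: `G j :↔ aRow j ≤ q`.  Take `g` from `row_exists_g`, let `gi j := if g j then 1 else 0`.
`X i := ∑ j, gi j * W i j`.  By `cons` and shift invariance of sums over `ZMod T`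
  `X i - X (i-1) = ∑ j, gi j * (U i j - U i (j-1)) = ∑ j, (gi j - gi (j+1)) * U i j`.
Let `P := {j | g j ∧ ¬ g (j+1)}`, `N := {j | ¬ g j ∧ g (j+1)}` (Finsets).  Elements of `P` are good rows
with `θ = true`, elements of `N` are good rows with `θ = false`; `#P = #N` (since
`∑ (gi j - gi (j+1)) = 0`), and `#P ≥ 1` because both colours occur among the good rows (g takes both
values; if `P = ∅` then `g (j+1) = true` whenever `g j = true`, hence `g` constant).
`D i := X i - X (i-1) = ∑ j in P, U i j - ∑ j in N, U i j`.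
`∑ i, (X i + X (i-1)) * D i = ∑ i, (X i ^2 - X (i-1)^2) = 0`.
Put `Z i := X i + X (i-1)` (`0 ≤ Z i ≤ 2 m`).  With `n := #P = #N`,
  `2 m n A = ∑ i, [(2 m - Z i) * ∑ j in P, U i j + Z i * ∑ j in N, U i j]`      (sumU).
Bound for every `i`:
* `σ i = true`: rows of `P` are mismatched with `i`:
  `(2m - Z i) * ∑ P U ≤ 2 m * ∑ j in P, mis i j * U i j`.
  `Z i = ∑ j, gi j * (W i j + W (i-1) j) ≤ ∑ j, mis i j * (W i j + W (i-1) j) + 2 * #{bad j with θ j = false, g j}`
  (rows with `gi j = 1` are either `θ j = true = σ i` (mismatched) or `θ j = false` and then bad), so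
  `Z i * ∑ N U ≤ n * ∑ j, mis i j * (W i j + W (i-1) j) + 2 * #{bad, θ = false} * ∑ N U`.
* `σ i = false`: symmetric with `2m - Z i = ∑ j, (1 - gi j) * (W i j + W (i-1) j)` (sumW).
Sum over `i`:  `2 m n A ≤ 2 m ∑ j in P ∪ N, aRow j + n * B2 + 2 * #bad * n * A ≤ 4 m n q + n B2 + 2 #bad n A`
and divide by `n ≥ 1`.

## `row_ineq`
If the good rows miss one colour then `#bad ≥ T/2` (balθ), so `2 A #bad ≥ A T ≥ 2 m A`; the other terms are
nonnegative (`0 ≤ m`, `0 ≤ A`, `0 ≤ B2`, `0 ≤ q`).
-/

namespace Pool.Agent.H95.NP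

open Finset

theorem row_exists_g {T : ℕ} [NeZero T] (θ : ZMod T → Bool) (G : ZMod T → Prop) (hG : ∃ j, G j) :
    ∃ g : ZMod T → Bool, (∀ j, G j → g j = θ j) ∧ (∀ j, ¬ G j → g j = g (j + 1)) := by
  classical
  have hex : ∀ j : ZMod T, ∃ k : ℕ, G (j + (k : ZMod T)) := by
    intro j
    obtain ⟨j0, hj0⟩ := hG
    refine ⟨(j0 - j).val, ?_⟩
    rw [ZMod.natCast_zmod_val]
    simpa using hj0
  refine ⟨fun j => θ (j + ((Nat.find (hex j) : ℕ) : ZMod T)), ?_, ?_⟩
  · intro j hj
    have h0 : Nat.find (hex j) = 0 := by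
      rw [Nat.find_eq_zero]
      simpa using hj
    simp [h0]
  · intro j hj
    have h1 : Nat.find (hex j) = Nat.find (hex (j + 1)) + 1 := by
      rw [Nat.find_eq_iff]
      constructor
      · have h2 := Nat.find_spec (hex (j + 1))
        have h3 : j + ((Nat.find (hex (j + 1)) + 1 : ℕ) : ZMod T)
            = j + 1 + ((Nat.find (hex (j + 1)) : ℕ) : ZMod T) := by push_cast; ring
        rw [h3]; exact h2
      · intro n hn
        rcases n with _ | n
        · simpa using hj
        · have h2 := Nat.find_min (hex (j + 1)) (by omega : n < _)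
          have h3 : j + ((n + 1 : ℕ) : ZMod T) = j + 1 + ((n : ℕ) : ZMod T) := by
            push_cast; ring
          rw [h3]; exact h2
    show θ _ = θ _
    rw [h1]
    congr 1
    push_cast; ring

theorem Row_shift {T : ℕ} [NeZero T] (f : ZMod T → ℤ) : ∑ j, f (j + 1) = ∑ j, f j :=
  Equiv.sum_comp (Equiv.addRight (1 : ZMod T)) f

theorem Row_shift' {T : ℕ} [NeZero T] (f : ZMod T → ℤ) : ∑ j, f (j - 1) = ∑ j, f j :=
  Equiv.sum_comp (Equiv.subRight (1 : ZMod T)) f

theorem row_core {X T : ℕ} [NeZero X] [NeZero T] {σ : ZMod X → Bool} {θ : ZMod T → Bool}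
    {m A : ℤ} {U W : ZMod X → ZMod T → ℤ} (h : TF X T σ θ m A U W) (q : ℤ)
    (hr : ∃ j, aRow σ θ U j ≤ q ∧ θ j = true) (hb : ∃ j, aRow σ θ U j ≤ q ∧ θ j = false) :
    2 * m * A ≤ 4 * m * q + B2 σ θ W + 2 * A * (univ.filter fun j => q < aRow σ θ U j).card := by
  classical
  obtain ⟨g, hg1, hg2⟩ := row_exists_g θ (fun j => aRow σ θ U j ≤ q)
    (by obtain ⟨j, hj, _⟩ := hr; exact ⟨j, hj⟩)
  set gi : ZMod T → ℤ := fun j => if g j = true then 1 else 0 with hgi
  set P : Finset (ZMod T) := univ.filter fun j => g j = true ∧ g (j + 1) = false with hP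
  set N : Finset (ZMod T) := univ.filter fun j => g j = false ∧ g (j + 1) = true with hN
  have hU0 : ∀ i j, 0 ≤ U i j := fun i j => by rcases h.U01 i j with h | h <;> omega
  have hU1 : ∀ i j, U i j ≤ 1 := fun i j => by rcases h.U01 i j with h | h <;> omega
  have hW0 : ∀ i j, 0 ≤ W i j := fun i j => by rcases h.W01 i j with h | h <;> omega
  have hW1 : ∀ i j, W i j ≤ 1 := fun i j => by rcases h.W01 i j with h | h <;> omega
  have hm0 : 0 ≤ m := by
    rw [← h.sumW 0]; exact Finset.sum_nonneg fun j _ => hW0 _ _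
  -- rows of P and N
  have hPt : ∀ j ∈ P, aRow σ θ U j ≤ q ∧ θ j = true := by
    intro j hj
    simp only [hP, mem_filter, mem_univ, true_and] at hj
    by_cases hG : aRow σ θ U j ≤ q
    · exact ⟨hG, by rw [← hg1 j hG]; exact hj.1⟩
    · have := hg2 j hG
      rw [hj.1, hj.2] at this
      exact absurd this (by decide)
  have hNt : ∀ j ∈ N, aRow σ θ U j ≤ q ∧ θ j = false := by
    intro j hj
    simp only [hN, mem_filter, mem_univ, true_and] at hj
    by_cases hG : aRow σ θ U j ≤ q
    · exact ⟨hG, by rw [← hg1 j hG]; exact hj.1⟩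
    · have := hg2 j hG
      rw [hj.1, hj.2] at this
      exact absurd this (by decide)
  -- differences of gi
  have hdiff : ∀ f : ZMod T → ℤ, ∑ j, (gi j - gi (j + 1)) * f j = ∑ j ∈ P, f j - ∑ j ∈ N, f j := by
    intro f
    rw [hP, hN, Finset.sum_filter, Finset.sum_filter, ← Finset.sum_sub_distrib]
    refine Finset.sum_congr rfl fun j _ => ?_
    simp only [hgi]
    rcases hgj : g j <;> rcases hgj1 : g (j + 1) <;> simp
  have hcard : (P.card : ℤ) = N.card := by
    have h1 := hdiff (fun _ => 1)
    simp only [mul_one, Finset.sum_const, nsmul_eq_mul, mul_one, Finset.sum_sub_distrib] at h1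
    rw [Row_shift gi] at h1
    omega
  have hPpos : 0 < P.card := by
    rw [Finset.card_pos]
    by_contra hemp
    rw [Finset.not_nonempty_iff_eq_empty] at hemp
    obtain ⟨jr, hjr, htr⟩ := hr
    obtain ⟨jb, hjb, htb⟩ := hb
    have hstep : ∀ j, g j = true → g (j + 1) = true := by
      intro j hj
      by_contra hne
      have hmem : j ∈ P := by
        simp only [hP, mem_filter, mem_univ, true_and]
        exact ⟨hj, by simpa using hne⟩
      rw [hemp] at hmem
      exact absurd hmem (Finset.notMem_empty _)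
    have hall : ∀ k : ℕ, g (jr + (k : ZMod T)) = true := by
      intro k
      induction k with
      | zero => simpa using (hg1 jr hjr).trans htr
      | succ k ih =>
        have h3 := hstep _ ih
        have h4 : jr + ((k + 1 : ℕ) : ZMod T) = jr + (k : ZMod T) + 1 := by push_cast; ring
        rw [h4]; exact h3
    have h5 := hall (jb - jr).val
    rw [ZMod.natCast_zmod_val] at h5
    have h6 : jr + (jb - jr) = jb := by ring
    rw [h6, hg1 jb hjb, htb] at h5
    exact absurd h5 (by decide)
  -- sums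
  set Xs : ZMod X → ℤ := fun i => ∑ j, gi j * W i j with hXs
  set SP : ZMod X → ℤ := fun i => ∑ j ∈ P, U i j with hSP
  set SN : ZMod X → ℤ := fun i => ∑ j ∈ N, U i j with hSN
  have hD : ∀ i, Xs i - Xs (i - 1) = SP i - SN i := by
    intro i
    have h1 : Xs i - Xs (i - 1) = ∑ j, gi j * U i j - ∑ j, gi j * U i (j - 1) := by
      simp only [hXs]
      rw [← Finset.sum_sub_distrib, ← Finset.sum_sub_distrib]
      refine Finset.sum_congr rfl fun j _ => ?_
      have := h.cons i j
      have h2 : W i j - W (i - 1) j = U i j - U i (j - 1) := by omega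
      rw [← mul_sub, ← mul_sub, h2]
    have h2 : ∑ j, gi j * U i (j - 1) = ∑ j, gi (j + 1) * U i j := by
      rw [← Row_shift (fun j => gi j * U i (j - 1))]
      refine Finset.sum_congr rfl fun j _ => ?_
      simp
    rw [h1, h2, ← Finset.sum_sub_distrib, ← hdiff (fun j => U i j)]
    refine Finset.sum_congr rfl fun j _ => ?_
    ring
  set Z : ZMod X → ℤ := fun i => Xs i + Xs (i - 1) with hZ
  have hZsum : ∀ i, Z i = ∑ j, gi j * (W i j + W (i - 1) j) := by
    intro i
    simp only [hZ, hXs]
    rw [← Finset.sum_add_distrib]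
    exact Finset.sum_congr rfl fun j _ => by ring
  have hgi01 : ∀ j, 0 ≤ gi j ∧ gi j ≤ 1 := by
    intro j; simp only [hgi]; split_ifs <;> omega
  have hZ0 : ∀ i, 0 ≤ Z i := by
    intro i; rw [hZsum]
    exact Finset.sum_nonneg fun j _ => mul_nonneg (hgi01 j).1 (add_nonneg (hW0 _ _) (hW0 _ _))
  have h2m : ∀ i, 2 * m = ∑ j, (W i j + W (i - 1) j) := by
    intro i; rw [Finset.sum_add_distrib, h.sumW, h.sumW]; ring
  have h2mZ : ∀ i, 2 * m - Z i = ∑ j, (1 - gi j) * (W i j + W (i - 1) j) := by
    intro i; rw [hZsum, h2m i, ← Finset.sum_sub_distrib]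
    exact Finset.sum_congr rfl fun j _ => by ring
  have hZ2 : ∀ i, 0 ≤ 2 * m - Z i := by
    intro i; rw [h2mZ]
    exact Finset.sum_nonneg fun j _ =>
      mul_nonneg (by linarith [(hgi01 j).2]) (add_nonneg (hW0 _ _) (hW0 _ _))
  have hSP0 : ∀ i, 0 ≤ SP i := fun i => Finset.sum_nonneg fun j _ => hU0 _ _
  have hSN0 : ∀ i, 0 ≤ SN i := fun i => Finset.sum_nonneg fun j _ => hU0 _ _
  have hSPn : ∀ i, SP i ≤ P.card := by
    intro i
    calc SP i ≤ ∑ j ∈ P, (1 : ℤ) := Finset.sum_le_sum fun j _ => hU1 _ _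
      _ = P.card := by simp
  have hSNn : ∀ i, SN i ≤ P.card := by
    intro i
    rw [hcard]
    calc SN i ≤ ∑ j ∈ N, (1 : ℤ) := Finset.sum_le_sum fun j _ => hU1 _ _
      _ = N.card := by simp
  set M : ZMod X → ℤ := fun i => ∑ j, mis σ θ i j * (W i j + W (i - 1) j) with hM
  have hmis0 : ∀ i j, 0 ≤ mis σ θ i j := by intro i j; unfold mis; split_ifs <;> omega
  have hM0 : ∀ i, 0 ≤ M i := fun i => Finset.sum_nonneg fun j _ =>
    mul_nonneg (hmis0 _ _) (add_nonneg (hW0 _ _) (hW0 _ _))
  set bF : ℤ := ((univ.filter fun j => q < aRow σ θ U j ∧ θ j = false).card : ℤ) with hbF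
  set bT : ℤ := ((univ.filter fun j => q < aRow σ θ U j ∧ θ j = true).card : ℤ) with hbT
  have hbFsum : bF = ∑ j, (if q < aRow σ θ U j ∧ θ j = false then (1 : ℤ) else 0) := by
    rw [hbF, Finset.card_filter]; push_cast; rfl
  have hbTsum : bT = ∑ j, (if q < aRow σ θ U j ∧ θ j = true then (1 : ℤ) else 0) := by
    rw [hbT, Finset.card_filter]; push_cast; rfl
  have hbF0 : 0 ≤ bF := by positivity
  have hbT0 : 0 ≤ bT := by positivity
  have hbad : bF + bT = ((univ.filter fun j => q < aRow σ θ U j).card : ℤ) := by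
    rw [hbFsum, hbTsum, Finset.card_filter, ← Finset.sum_add_distrib]
    push_cast
    refine Finset.sum_congr rfl fun j _ => ?_
    rcases hθ : θ j <;> by_cases hq : q < aRow σ θ U j <;> simp [hq]
  -- per column inequality
  have hcol : ∀ i, (2 * m - Z i) * SP i + Z i * SN i ≤
      2 * m * (∑ j ∈ P, mis σ θ i j * U i j + ∑ j ∈ N, mis σ θ i j * U i j) + P.card * M i
        + 2 * (bF * SN i + bT * SP i) := by
    intro i
    rcases hσ : σ i with _ | _
    · -- blue column
      have e1 : ∑ j ∈ P, mis σ θ i j * U i j = 0 := by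
        refine Finset.sum_eq_zero fun j hj => ?_
        have := (hPt j hj).2
        simp [mis, hσ, this]
      have e2 : ∑ j ∈ N, mis σ θ i j * U i j = SN i := by
        refine Finset.sum_congr rfl fun j hj => ?_
        have := (hNt j hj).2
        simp [mis, hσ, this]
      have e3 : 2 * m - Z i ≤ M i + 2 * bT := by
        rw [h2mZ, hbTsum, hM, Finset.mul_sum, ← Finset.sum_add_distrib]
        refine Finset.sum_le_sum fun j _ => ?_
        have hw := add_nonneg (hW0 i j) (hW0 (i - 1) j)
        have hw2 : W i j + W (i - 1) j ≤ 2 := by linarith [hW1 i j, hW1 (i - 1) j]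
        rcases hgj : g j with _ | _
        · rcases hθ : θ j with _ | _
          · simp [hgi, hgj, mis, hσ, hθ]
          · have hnG : ¬ aRow σ θ U j ≤ q := by
              intro hG
              have := hg1 j hG
              rw [hgj, hθ] at this
              exact absurd this (by decide)
            have hq : q < aRow σ θ U j := not_le.mp hnG
            simp [hgi, hgj, mis, hσ, hθ, hq]
            exact hw2
        · have e4 : (1 - gi j) * (W i j + W (i - 1) j) = 0 := by simp [hgi, hgj]
          rw [e4]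
          have := mul_nonneg (hmis0 i j) hw
          split_ifs <;> omega
      rw [e1, e2]
      have k1 : (2 * m - Z i) * SP i ≤ (M i + 2 * bT) * SP i :=
        mul_le_mul_of_nonneg_right e3 (hSP0 i)
      have k2 : M i * SP i ≤ M i * P.card := mul_le_mul_of_nonneg_left (hSPn i) (hM0 i)
      have k3 : Z i * SN i ≤ 2 * m * SN i :=
        mul_le_mul_of_nonneg_right (by linarith [hZ2 i]) (hSN0 i)
      have k4 : 0 ≤ bF * SN i := mul_nonneg hbF0 (hSN0 i)
      nlinarith [k1, k2, k3, k4]
    · -- red column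
      have e1 : ∑ j ∈ N, mis σ θ i j * U i j = 0 := by
        refine Finset.sum_eq_zero fun j hj => ?_
        have := (hNt j hj).2
        simp [mis, hσ, this]
      have e2 : ∑ j ∈ P, mis σ θ i j * U i j = SP i := by
        refine Finset.sum_congr rfl fun j hj => ?_
        have := (hPt j hj).2
        simp [mis, hσ, this]
      have e3 : Z i ≤ M i + 2 * bF := by
        rw [hZsum, hbFsum, hM, Finset.mul_sum, ← Finset.sum_add_distrib]
        refine Finset.sum_le_sum fun j _ => ?_
        have hw := add_nonneg (hW0 i j) (hW0 (i - 1) j)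
        have hw2 : W i j + W (i - 1) j ≤ 2 := by linarith [hW1 i j, hW1 (i - 1) j]
        rcases hgj : g j with _ | _
        · have e4 : gi j * (W i j + W (i - 1) j) = 0 := by simp [hgi, hgj]
          rw [e4]
          have := mul_nonneg (hmis0 i j) hw
          split_ifs <;> omega
        · rcases hθ : θ j with _ | _
          · have hnG : ¬ aRow σ θ U j ≤ q := by
              intro hG
              have := hg1 j hG
              rw [hgj, hθ] at this
              exact absurd this (by decide)
            have hq : q < aRow σ θ U j := not_le.mp hnG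
            simp [hgi, hgj, mis, hσ, hθ, hq]
            exact hw2
          · simp [hgi, hgj, mis, hσ, hθ]
      rw [e1, e2]
      have k1 : Z i * SN i ≤ (M i + 2 * bF) * SN i :=
        mul_le_mul_of_nonneg_right e3 (hSN0 i)
      have k2 : M i * SN i ≤ M i * P.card := mul_le_mul_of_nonneg_left (hSNn i) (hM0 i)
      have k3 : (2 * m - Z i) * SP i ≤ 2 * m * SP i :=
        mul_le_mul_of_nonneg_right (by linarith [hZ0 i]) (hSP0 i)
      have k4 : 0 ≤ bT * SP i := mul_nonneg hbT0 (hSP0 i)
      nlinarith [k1, k2, k3, k4]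
  -- sum over columns
  have hsum := Finset.sum_le_sum fun i (_ : i ∈ (univ : Finset (ZMod X))) => hcol i
  have hSPs : ∑ i, SP i = P.card * A := by
    simp only [hSP]
    rw [Finset.sum_comm]
    rw [Finset.sum_congr rfl fun j _ => h.sumU j]
    simp
  have hSNs : ∑ i, SN i = P.card * A := by
    simp only [hSN]
    rw [Finset.sum_comm]
    rw [Finset.sum_congr rfl fun j _ => h.sumU j]
    rw [hcard]
    simp
  have hZD : ∑ i, Z i * (SP i - SN i) = 0 := by
    have e1 : ∀ i, Z i * (SP i - SN i) = Xs i ^ 2 - Xs (i - 1) ^ 2 := by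
      intro i; rw [← hD i]; simp only [hZ]; ring
    rw [Finset.sum_congr rfl fun i _ => e1 i, Finset.sum_sub_distrib,
      Row_shift' (fun i => Xs i ^ 2)]
    ring
  have hlhs : ∑ i, ((2 * m - Z i) * SP i + Z i * SN i) = 2 * m * (P.card * A) := by
    have e1 : ∀ i, (2 * m - Z i) * SP i + Z i * SN i = 2 * m * SP i - Z i * (SP i - SN i) := by
      intro i; ring
    rw [Finset.sum_congr rfl fun i _ => e1 i, Finset.sum_sub_distrib, hZD, ← Finset.mul_sum, hSPs]
    ring
  have hwait : ∑ i, (∑ j ∈ P, mis σ θ i j * U i j + ∑ j ∈ N, mis σ θ i j * U i j) ≤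
      2 * (P.card * q) := by
    rw [Finset.sum_add_distrib, Finset.sum_comm, Finset.sum_comm (t := N)]
    have e1 : ∑ j ∈ P, ∑ i, mis σ θ i j * U i j ≤ ∑ j ∈ P, q :=
      Finset.sum_le_sum fun j hj => (hPt j hj).1
    have e2 : ∑ j ∈ N, ∑ i, mis σ θ i j * U i j ≤ ∑ j ∈ N, q :=
      Finset.sum_le_sum fun j hj => (hNt j hj).1
    simp only [Finset.sum_const, nsmul_eq_mul] at e1 e2
    rw [← hcard] at e2
    linarith
  have hrhs : ∑ i, (2 * m * (∑ j ∈ P, mis σ θ i j * U i j + ∑ j ∈ N, mis σ θ i j * U i j)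
      + P.card * M i + 2 * (bF * SN i + bT * SP i)) =
      2 * m * ∑ i, (∑ j ∈ P, mis σ θ i j * U i j + ∑ j ∈ N, mis σ θ i j * U i j)
      + P.card * B2 σ θ W + 2 * ((bF + bT) * (P.card * A)) := by
    have e1 : ∑ i, (bF * SN i + bT * SP i) = (bF + bT) * (P.card * A) := by
      rw [Finset.sum_add_distrib, ← Finset.mul_sum, ← Finset.mul_sum, hSNs, hSPs]; ring
    have e2 : ∑ i, M i = B2 σ θ W := rfl
    rw [Finset.sum_add_distrib, Finset.sum_add_distrib, ← Finset.mul_sum, ← Finset.mul_sum,
      ← Finset.mul_sum, e1, e2]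
  rw [hlhs, hrhs, hbad] at hsum
  have hfin : (P.card : ℤ) * (2 * m * A) ≤ P.card * (4 * m * q + B2 σ θ W
      + 2 * A * (univ.filter fun j => q < aRow σ θ U j).card) := by
    have k := mul_le_mul_of_nonneg_left hwait (by linarith : (0 : ℤ) ≤ 2 * m)
    nlinarith [hsum, k]
  exact le_of_mul_le_mul_left hfin (by exact_mod_cast hPpos)

theorem row_ineq {X T : ℕ} [NeZero X] [NeZero T] {σ : ZMod X → Bool} {θ : ZMod T → Bool}
    {m A : ℤ} {U W : ZMod X → ZMod T → ℤ} (h : TF X T σ θ m A U W) (hm : 2 * m ≤ T)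
    (q : ℤ) (hq : 0 ≤ q) :
    2 * m * A ≤ 4 * m * q + B2 σ θ W + 2 * A * (univ.filter fun j => q < aRow σ θ U j).card := by
  classical
  have hU0 : ∀ i j, 0 ≤ U i j := fun i j => by rcases h.U01 i j with h | h <;> omega
  have hW0 : ∀ i j, 0 ≤ W i j := fun i j => by rcases h.W01 i j with h | h <;> omega
  have hm0 : 0 ≤ m := by
    rw [← h.sumW 0]; exact Finset.sum_nonneg fun j _ => hW0 _ _
  have hA0 : 0 ≤ A := by
    rw [← h.sumU 0]; exact Finset.sum_nonneg fun j _ => hU0 _ _
  have hB0 : 0 ≤ B2 σ θ W := by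
    unfold B2
    refine Finset.sum_nonneg fun i _ => Finset.sum_nonneg fun j _ => mul_nonneg ?_
      (add_nonneg (hW0 _ _) (hW0 _ _))
    unfold mis; split_ifs <;> omega
  by_cases hr : ∃ j, aRow σ θ U j ≤ q ∧ θ j = true
  · by_cases hb : ∃ j, aRow σ θ U j ≤ q ∧ θ j = false
    · exact row_core h q hr hb
    · push Not at hb
      have h1 : (univ.filter fun j => θ j = false).card ≤
          (univ.filter fun j => q < aRow σ θ U j).card := by
        refine Finset.card_le_card fun j hj => ?_
        simp only [mem_filter, mem_univ, true_and] at hj ⊢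
        by_contra hc
        exact hb j (not_lt.mp hc) hj
      have h2 : (univ.filter fun j => θ j = true).card + (univ.filter fun j => θ j = false).card
          = T := by
        have h3 := Finset.card_filter_add_card_filter_not (s := (univ : Finset (ZMod T)))
          (fun j => θ j = true)
        simp only [Bool.not_eq_true, Finset.card_univ, ZMod.card] at h3
        exact h3
      have h4 := h.balθ
      have h5 : (T : ℤ) ≤ 2 * (univ.filter fun j => q < aRow σ θ U j).card := by
        have : T ≤ 2 * (univ.filter fun j => q < aRow σ θ U j).card := by omega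
        exact_mod_cast this
      have h6 : 2 * m * A ≤ 2 * A * (univ.filter fun j => q < aRow σ θ U j).card := by
        nlinarith
      have h7 : 0 ≤ 4 * m * q := by positivity
      linarith
  · push Not at hr
    have h1 : (univ.filter fun j => θ j = true).card ≤
        (univ.filter fun j => q < aRow σ θ U j).card := by
      refine Finset.card_le_card fun j hj => ?_
      simp only [mem_filter, mem_univ, true_and] at hj ⊢
      by_contra hc
      exact hr j (not_lt.mp hc) hj
    have h4 := h.balθ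
    have h5 : (T : ℤ) ≤ 2 * (univ.filter fun j => q < aRow σ θ U j).card := by
      have : T ≤ 2 * (univ.filter fun j => q < aRow σ θ U j).card := by omega
      exact_mod_cast this
    have h6 : 2 * m * A ≤ 2 * A * (univ.filter fun j => q < aRow σ θ U j).card := by
      nlinarith
    have h7 : 0 ≤ 4 * m * q := by positivity
    linarith

end Pool.Agent.H95.NP
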